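import Pool.Agent.Lib.MP_abd978_an.UN.Interfaces

/-!
# Locally Lipschitz functions (tools for ALG)
-/

set_option autoImplicit false

open MeasureTheory Metric Set Filter Topology ContDiff
open scoped Gradient RealInnerProductSpace NNReal ENNReal

namespace Pool.Agent.Lib.MP_abd978_an.UN.H30

variable {n : ℕ} {F G : Type} [NormedAddCommGroup F] [NormedAddCommGroup G]

/-- Lipschitz near the point `x` -/
def LLip (f : E n → F) (x : E n) : Prop := ∃ K : ℝ≥0, ∃ U ∈ 𝓝 x, LipschitzOnWith K f U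

theorem LLip.congr {f g : E n → F} {x : E n} (h : LLip f x) (hfg : ∀ᶠ y in 𝓝 x, g y = f y) :
    LLip g x := by
  obtain ⟨K, U, hU, hK⟩ := h
  refine ⟨K, U ∩ {y | g y = f y}, inter_mem hU hfg, ?_⟩
  intro y hy z hz
  have h1 : g y = f y := hy.2
  have h2 : g z = f z := hz.2
  rw [h1, h2]
  exact hK hy.1 hz.1

theorem LLip.const (c : F) (x : E n) : LLip (fun _ : E n => c) x :=
  ⟨0, univ, univ_mem, (LipschitzWith.const c).lipschitzOnWith⟩

theorem LLip.continuousAt {f : E n → F} {x : E n} (h : LLip f x) : ContinuousAt f x := by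
  obtain ⟨K, U, hU, hK⟩ := h
  exact hK.continuousOn.continuousAt hU

theorem LLip.comp {f : E n → F} {x : E n} {g : F → G} {K : ℝ≥0} (hg : LipschitzWith K g)
    (h : LLip f x) : LLip (fun y => g (f y)) x := by
  obtain ⟨K', U, hU, hK⟩ := h
  exact ⟨K * K', U, hU, hg.comp_lipschitzOnWith hK⟩

theorem LLip.sub {f g : E n → F} {x : E n} (hf : LLip f x) (hg : LLip g x) :
    LLip (fun y => f y - g y) x := by
  obtain ⟨K, U, hU, hK⟩ := hf
  obtain ⟨K', U', hU', hK'⟩ := hg
  exact ⟨K + K', U ∩ U', inter_mem hU hU',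
    (hK.mono inter_subset_left).sub (hK'.mono inter_subset_right)⟩

theorem LLip.mul {f g : E n → ℝ} {x : E n} (hf : LLip f x) (hg : LLip g x) :
    LLip (fun y => f y * g y) x := by
  have hfc := hf.continuousAt
  have hgc := hg.continuousAt
  obtain ⟨K, U, hU, hK⟩ := hf
  obtain ⟨K', U', hU', hK'⟩ := hg
  have h1 : ∀ᶠ y in 𝓝 x, |f y| < |f x| + 1 :=
    hfc.abs.eventually (gt_mem_nhds (lt_add_one _))
  have h2 : ∀ᶠ y in 𝓝 x, |g y| < |g x| + 1 :=
    hgc.abs.eventually (gt_mem_nhds (lt_add_one _))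
  refine ⟨⟨(|f x| + 1) * K' + (|g x| + 1) * K, by positivity⟩,
    (U ∩ U') ∩ ({y | |f y| < |f x| + 1} ∩ {y | |g y| < |g x| + 1}),
    inter_mem (inter_mem hU hU') (inter_mem h1 h2), ?_⟩
  refine LipschitzOnWith.of_dist_le_mul ?_
  intro y hy z hz
  have e1 : f y * g y - f z * g z = f y * (g y - g z) + g z * (f y - f z) := by ring
  have h3 : |f y| ≤ |f x| + 1 := le_of_lt hy.2.1
  have h4 : |g z| ≤ |g x| + 1 := le_of_lt hz.2.2
  have h5 := hK.dist_le_mul y hy.1.1 z hz.1.1
  have h6 := hK'.dist_le_mul y hy.1.2 z hz.1.2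
  rw [Real.dist_eq] at h5 h6 ⊢
  rw [e1]
  refine (abs_add_le _ _).trans ?_
  rw [abs_mul, abs_mul]
  have h7 : |f y| * |g y - g z| ≤ (|f x| + 1) * (K' * dist y z) :=
    mul_le_mul h3 h6 (abs_nonneg _) (by positivity)
  have h8 : |g z| * |f y - f z| ≤ (|g x| + 1) * (K * dist y z) :=
    mul_le_mul h4 h5 (abs_nonneg _) (by positivity)
  change _ ≤ ((|f x| + 1) * K' + (|g x| + 1) * K) * dist y z
  nlinarith [h7, h8]

theorem exists_lip_of_compact {f : E n → ℝ} (h : ∀ x, LLip f x) (hc : HasCompactSupport f) :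
    ∃ K : ℝ≥0, LipschitzWith K f := by
  obtain ⟨R, hR⟩ := hc.isBounded.subset_closedBall (0 : E n)
  have h1 : LocallyLipschitzOn (closedBall (0 : E n) (R + 1)) f := by
    intro x _
    obtain ⟨K, U, hU, hK⟩ := h x
    exact ⟨K, U, mem_nhdsWithin_of_mem_nhds hU, hK⟩
  obtain ⟨K, hK⟩ := h1.exists_lipschitzOnWith_of_compact (isCompact_closedBall _ _)
  have hcont : Continuous f := continuous_iff_continuousAt.2 fun x => (h x).continuousAt
  obtain ⟨M, hM⟩ := hcont.bounded_above_of_compact_support hc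
  have hM0 : 0 ≤ M := (norm_nonneg _).trans (hM 0)
  have key : ∀ x y : E n, f x ≠ 0 → dist (f x) (f y) ≤ (K + M) * dist x y := by
    intro x y hx
    have hx1 : x ∈ closedBall (0 : E n) R := hR (subset_tsupport f hx)
    have hx2 : ‖x‖ ≤ R := by simpa using hx1
    by_cases hy : y ∈ closedBall (0 : E n) (R + 1)
    · have hx3 : x ∈ closedBall (0 : E n) (R + 1) := by
        simp only [mem_closedBall, dist_zero_right]; linarith
      have := hK.dist_le_mul x hx3 y hy
      nlinarith [dist_nonneg (x := x) (y := y)]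
    · have hy2 : R + 1 < ‖y‖ := by simpa using hy
      have hfy : f y = 0 := by
        by_contra hne
        have := hR (subset_tsupport f hne)
        simp only [mem_closedBall, dist_zero_right] at this
        linarith
      have hd : 1 ≤ dist x y := by
        rw [dist_eq_norm]
        have := norm_sub_norm_le y x
        rw [norm_sub_rev] at this
        linarith
      have h2 : dist (f x) (f y) ≤ M := by
        rw [hfy, dist_zero_right]; exact hM x
      nlinarith [NNReal.coe_nonneg K, mul_nonneg (NNReal.coe_nonneg K) (dist_nonneg (x := x) (y := y))]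
  refine ⟨K + ⟨M, hM0⟩, LipschitzWith.of_dist_le_mul ?_⟩
  intro x y
  change _ ≤ ((K : ℝ) + M) * dist x y
  by_cases hx : f x = 0
  · by_cases hy : f y = 0
    · rw [hx, hy, dist_self]; positivity
    · rw [dist_comm, dist_comm x y]; exact key y x hy
  · exact key x y hx

theorem ae_diff {Ω : Set (E n)} [NormedSpace ℝ F] [FiniteDimensional ℝ F] {f : E n → F}
    (h : LocLip Ω f) :
    ∀ᵐ x : E n, x ∈ Ω → DifferentiableAt ℝ f x := by
  rw [ae_iff]
  refine measure_null_of_locally_null _ fun x hx => ?_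
  have hx' : x ∈ Ω := by
    simp only [mem_setOf_eq] at hx; push_neg at hx; exact hx.1
  obtain ⟨K, U, hU, hK⟩ := h x hx'
  refine ⟨{y | ¬ (y ∈ U → DifferentiableWithinAt ℝ f U y)} ∪ ({y | ¬(y ∈ Ω → DifferentiableAt ℝ f y)} ∩
    {y | ¬ (y ∈ U → DifferentiableWithinAt ℝ f U y)}), ?_, ?_⟩
  · have hi : interior U ∈ 𝓝[{y | ¬(y ∈ Ω → DifferentiableAt ℝ f y)}] x :=
      mem_nhdsWithin_of_mem_nhds (interior_mem_nhds.2 hU)
    filter_upwards [hi, self_mem_nhdsWithin] with y hy hy2
    left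
    intro h3
    apply hy2
    intro _
    exact (h3 (interior_subset hy)).differentiableAt (mem_interior_iff_mem_nhds.1 hy)
  · have h0 : volume {y | ¬ (y ∈ U → DifferentiableWithinAt ℝ f U y)} = 0 :=
      ae_iff.1 (hK.ae_differentiableWithinAt_of_mem (μ := (volume : Measure (E n))))
    refine measure_mono_null (union_subset subset_rfl inter_subset_right) h0

theorem fderiv_bdd {Ω : Set (E n)} [NormedSpace ℝ F] {f : E n → F} (h : LocLip Ω f)
    {K : Set (E n)} (hK : IsCompact K) (hKΩ : K ⊆ Ω) :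
    ∃ M : ℝ, 0 ≤ M ∧ ∀ x ∈ K, ‖fderiv ℝ f x‖ ≤ M := by
  refine hK.induction_on (p := fun s => ∃ M : ℝ, 0 ≤ M ∧ ∀ x ∈ s, ‖fderiv ℝ f x‖ ≤ M)
    ⟨0, le_rfl, by simp⟩ ?_ ?_ ?_
  · rintro s t hst ⟨M, h0, hM⟩
    exact ⟨M, h0, fun x hx => hM x (hst hx)⟩
  · rintro s t ⟨M, h0, hM⟩ ⟨M', h0', hM'⟩
    refine ⟨max M M', h0.trans (le_max_left _ _), ?_⟩
    rintro x (hx | hx)
    · exact (hM x hx).trans (le_max_left _ _)
    · exact (hM' x hx).trans (le_max_right _ _)
  · intro x hx
    obtain ⟨C, U, hU, hC⟩ := h x (hKΩ hx)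
    refine ⟨interior U, mem_nhdsWithin_of_mem_nhds (interior_mem_nhds.2 hU), C, C.2, ?_⟩
    intro y hy
    exact norm_fderiv_le_of_lipschitzOn ℝ (mem_interior_iff_mem_nhds.1 hy) hC

/-- the product of a locally Lipschitz function with a function of `LipC` -/
theorem LipC.mul_left {Ω : Set (E n)} {g φ : E n → ℝ} (hg : ∀ x ∈ Ω, LLip g x)
    (hφ : LipC Ω φ) : LipC Ω fun x => g x * φ x := by
  obtain ⟨⟨K, hK⟩, h2, h3⟩ := hφ
  have hsub : tsupport (fun x => g x * φ x) ⊆ tsupport φ :=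
    closure_mono (Function.support_mul_subset_right g φ)
  have hc : HasCompactSupport fun x => g x * φ x := h2.mono' ((Function.support_mul_subset_right
    g φ).trans subset_closure)
  refine ⟨exists_lip_of_compact ?_ hc, hc, hsub.trans h3⟩
  intro x
  by_cases hx : x ∈ tsupport φ
  · exact (hg x (h3 hx)).mul ⟨K, univ, univ_mem, hK.lipschitzOnWith⟩
  · have h0 : ∀ᶠ y in 𝓝 x, g y * φ y = 0 := by
      have := (isClosed_tsupport φ).isOpen_compl.mem_nhds hx
      filter_upwards [this] with y hy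
      rw [image_eq_zero_of_notMem_tsupport hy, mul_zero]
    exact (LLip.const 0 x).congr h0

end Pool.Agent.Lib.MP_abd978_an.UN.H30
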