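import Pool.Agent.Lib.MP_abd978_an.UN.H30.Det

/-!
# ALG: the local form of the mixed determinant integral
-/

set_option autoImplicit false

open MeasureTheory Metric Set Filter Topology ContDiff
open scoped Gradient RealInnerProductSpace NNReal ENNReal

namespace Pool.Agent.Lib.MP_abd978_an.UN.H30

variable {n N : ℕ}

theorem cut_cases {Ω : Set (E n)} {f : E n → E n} {q : E n → ℝ} {z y : E n} {ε : ℝ}
    (hΩ : IsOpen Ω) (hf : ContinuousOn f Ω) (hq : tsupport q ⊆ ball z ε) {x : E n} (hx : x ∈ Ω) :
    x ∈ Cp Ω f z ε y ∨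
      ∀ᶠ x' in 𝓝 x, (Cp Ω f z ε y).indicator (fun x => q (f x)) x' = 0 := by
  by_cases hW : x ∈ Cp Ω f z ε y
  · exact Or.inl hW
  right
  have hU : IsOpen (Ω ∩ f ⁻¹' ball z ε) := hf.isOpen_inter_preimage hΩ isOpen_ball
  by_cases hfx : f x ∈ ball z ε
  · have hxU : x ∈ Ω ∩ f ⁻¹' ball z ε := ⟨hx, hfx⟩
    have h1 : connectedComponentIn (Ω ∩ f ⁻¹' ball z ε) x ∈ 𝓝 x :=
      hU.connectedComponentIn.mem_nhds (mem_connectedComponentIn hxU)
    filter_upwards [h1] with x' hx'
    refine indicator_of_notMem ?_ _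
    intro h2
    apply hW
    unfold Cp at h2 ⊢
    rw [connectedComponentIn_eq h2, ← connectedComponentIn_eq hx']
    exact mem_connectedComponentIn hxU
  · have hx2 : f x ∉ tsupport q := fun h => hfx (hq h)
    have h1 : ∀ᶠ x' in 𝓝 x, f x' ∉ tsupport q :=
      (hf.continuousAt (hΩ.mem_nhds hx)).eventually
        ((isClosed_tsupport q).isOpen_compl.mem_nhds hx2)
    filter_upwards [h1] with x' hx'
    by_cases h2 : x' ∈ Cp Ω f z ε y
    · rw [indicator_of_mem h2, image_eq_zero_of_notMem_tsupport hx']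
    · exact indicator_of_notMem h2 _

theorem llip_cut {Ω : Set (E n)} {f : E n → E n} {q : E n → ℝ} {z y : E n} {ε : ℝ}
    (hΩ : IsOpen Ω) (hf : LocLip Ω f) (hq : Test (ball z ε) q) {x : E n} (hx : x ∈ Ω) :
    LLip (fun x' => (Cp Ω f z ε y).indicator (fun x => q (f x)) x') x := by
  have hfc : ContinuousOn f Ω := fun x' hx' =>
    (LLip.continuousAt (f := f) (hf x' hx')).continuousWithinAt
  have hU : IsOpen (Ω ∩ f ⁻¹' ball z ε) := hfc.isOpen_inter_preimage hΩ isOpen_ball
  rcases cut_cases (y := y) hΩ hfc hq.2.2 hx with h | h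
  · obtain ⟨C, hC⟩ := hq.1.lipschitzWith_of_hasCompactSupport hq.2.1 (by simp)
    refine (LLip.comp hC (f := f) (hf x hx)).congr ?_
    have h1 : Cp Ω f z ε y ∈ 𝓝 x := hU.connectedComponentIn.mem_nhds h
    filter_upwards [h1] with x' hx'
    rw [indicator_of_mem hx']
  · exact (LLip.const 0 x).congr h

theorem llip_ew {Ω : Set (E n)} {f : E n → E n} (hf : LocLip Ω f) (j : Fin n) (l : E n) (t : ℝ)
    {x : E n} (hx : x ∈ Ω) : LLip (ew f j l t) x := by
  have h1 : LLip (fun y : E n => y j - t) x := by
    refine ⟨1, univ, univ_mem, (LipschitzWith.of_dist_le_mul fun a b => ?_).lipschitzOnWith⟩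
    rw [Real.dist_eq, dist_eq_norm, NNReal.coe_one, one_mul]
    have : a j - t - (b j - t) = (a - b) j := by simp
    rw [this]
    exact PiLp.norm_apply_le (a - b) j
  have h2 : LLip (fun y : E n => (innerSL ℝ l) (f y)) x :=
    LLip.comp (innerSL ℝ l).lipschitz (f := f) (hf x hx)
  exact h1.sub h2

/-! ### Gradients -/

theorem inner_grad (F : E n → ℝ) (x v : E n) : ⟪∇ F x, v⟫ = fderiv ℝ F x v := by
  rw [grad_eq, InnerProductSpace.toDual_symm_apply]

theorem grad_apply (F : E n → ℝ) (x : E n) (k : Fin n) :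
    (∇ F x) k = fderiv ℝ F x (EuclideanSpace.single k 1) := by
  rw [← inner_grad, EuclideanSpace.inner_single_right]
  simp

theorem Dt_sum (f : E n → E n) (x u : E n) :
    Dt f x u = ∑ k, u k • Dt f x (EuclideanSpace.single k 1) := by
  have h : u = ∑ k, u k • EuclideanSpace.single k (1 : ℝ) := by
    ext i
    simp [Pi.single_apply]
  conv_lhs => rw [h]
  rw [map_sum]
  refine Finset.sum_congr rfl fun k _ => ?_
  rw [map_smul]

theorem grad_comp_map {f : E n → E n} {q : E n → ℝ} {x : E n} (hf : DifferentiableAt ℝ f x)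
    (hq : DifferentiableAt ℝ q (f x)) : ∇ (fun y => q (f y)) x = Dt f x (∇ q (f x)) := by
  refine ext_inner_right ℝ fun v => ?_
  unfold Dt
  rw [inner_grad, ContinuousLinearMap.adjoint_inner_left, inner_grad]
  rw [show (fun y => q (f y)) = q ∘ f from rfl, fderiv_comp x hq hf]
  rfl

theorem diff_ew {f : E n → E n} {x : E n} (hf : DifferentiableAt ℝ f x) (j : Fin n) (l : E n)
    (t : ℝ) : DifferentiableAt ℝ (ew f j l t) x ∧
      ∇ (ew f j l t) x = EuclideanSpace.single j 1 - Dt f x l := by
  have h1 : HasFDerivAt (fun y : E n => y j - t) (EuclideanSpace.proj (𝕜 := ℝ) j) x :=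
    (EuclideanSpace.proj (𝕜 := ℝ) j).hasFDerivAt.sub_const t
  have h2 : HasFDerivAt (fun y : E n => ⟪l, f y⟫) ((innerSL ℝ l).comp (fderiv ℝ f x)) x :=
    (innerSL ℝ l).hasFDerivAt.comp x hf.hasFDerivAt
  have h3 : HasFDerivAt (ew f j l t)
      (EuclideanSpace.proj (𝕜 := ℝ) j - (innerSL ℝ l).comp (fderiv ℝ f x)) x := h1.sub h2
  refine ⟨h3.differentiableAt, ?_⟩
  refine ext_inner_right ℝ fun v => ?_
  unfold Dt
  rw [inner_grad, h3.fderiv, inner_sub_left, ContinuousLinearMap.adjoint_inner_left,
    EuclideanSpace.inner_single_left]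
  simp

theorem nl_update (w : Fin N → Fin (N + 1) ⊕ Fin (N + 1)) (i : Fin N) (j m : Fin (N + 1))
    (h : w i = Sum.inl j) : nl (Function.update w i (Sum.inr m)) + 1 = nl w := by
  unfold nl
  have h1 : (Finset.univ.filter fun a => (Function.update w i (Sum.inr m) a).isLeft = true) =
      (Finset.univ.filter fun a => (w a).isLeft = true).erase i := by
    ext a
    simp only [Finset.mem_filter, Finset.mem_univ, true_and, Finset.mem_erase]
    by_cases ha : a = i
    · subst ha; simp
    · simp [ha]
  rw [h1]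
  refine Finset.card_erase_add_one ?_
  simp [h]

theorem alg : AlgStatement := by
  intro N p Ω f σ k hS hσ hP w i j hwi hw φ hφ z ε q y l t hε hq
  have hΩ := hS.isOpen
  have hf := hS.loclip
  have hfc : ContinuousOn f Ω := fun x' hx' =>
    (LLip.continuousAt (f := f) (hf x' hx')).continuousWithinAt
  have hU : IsOpen (Ω ∩ f ⁻¹' ball z ε) := hfc.isOpen_inter_preimage hΩ isOpen_ball
  have hWo : IsOpen (Cp Ω f z ε y) := hU.connectedComponentIn
  have hWΩ : Cp Ω f z ε y ⊆ Ω := (connectedComponentIn_subset _ _).trans inter_subset_left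
  -- partial derivatives
  let dq : Fin (N + 1) → E (N + 1) → ℝ := fun m z' => fderiv ℝ q z' (EuclideanSpace.single m 1)
  have hdq : ∀ m, Test (ball z ε) (dq m) := by
    intro m
    refine ⟨?_, hq.2.1.fderiv_apply ℝ _, (tsupport_fderiv_apply_subset ℝ _).trans hq.2.2⟩
    exact (hq.1.fderiv_right (m := ∞) (by simp)).clm_apply contDiff_const
  let F : E (N + 1) → ℝ := fun x => (Cp Ω f z ε y).indicator (fun x => q (f x)) x * φ x
  let G : Fin (N + 1) → E (N + 1) → ℝ := fun m x =>
    ((Cp Ω f z ε y).indicator (fun x => dq m (f x)) x * ew f j l t x) * φ x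
  have hF : LipC Ω F := LipC.mul_left (fun x hx => llip_cut hΩ hf hq hx) hφ
  have hG : ∀ m, LipC Ω (G m) := fun m =>
    LipC.mul_left (fun x hx => (llip_cut hΩ hf (hdq m) hx).mul (llip_ew hf j l t hx)) hφ
  have heq : ((Cp Ω f z ε y).indicator fun x => q (f x) * φ x) = F := by
    funext x
    by_cases hx : x ∈ Cp Ω f z ε y
    · simp only [F, indicator_of_mem hx]
    · simp only [F, indicator_of_notMem hx, zero_mul]
  rw [heq]
  refine ⟨hF, ?_⟩
  have hwm : ∀ m, nl (Function.update w i (Sum.inr m)) ≤ k := by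
    intro m
    have := nl_update w i j m hwi
    omega
  have z1 : ∀ m, ∫ x, σ x * mdet f x (Function.update w i (Sum.inr m)) (∇ F x) = 0 :=
    fun m => hP _ (hwm m) F hF
  have z2 : ∀ m, ∫ x, σ x * mdet f x (Function.update w i (Sum.inr m)) (∇ (G m) x) = 0 :=
    fun m => hP _ (hwm m) (G m) (hG m)
  have i0 := integrable_sig hS hσ w hF
  have i1 : ∀ m, Integrable fun x =>
      l m * (σ x * mdet f x (Function.update w i (Sum.inr m)) (∇ F x)) :=
    fun m => (integrable_sig hS hσ _ hF).const_mul _
  have i2 : ∀ m, Integrable fun x =>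
      σ x * mdet f x (Function.update w i (Sum.inr m)) (∇ (G m) x) :=
    fun m => integrable_sig hS hσ _ (hG m)
  have hφd : ∀ᵐ x : E (N + 1), DifferentiableAt ℝ φ x := by
    obtain ⟨K, hK⟩ := hφ.1
    exact hK.ae_differentiableAt
  have zero_of : ∀ (w' : Fin N → Fin (N + 1) ⊕ Fin (N + 1)) (H : E (N + 1) → ℝ)
      (x : E (N + 1)), (∀ᶠ x' in 𝓝 x, H x' = 0) → mdet f x w' (∇ H x) = 0 := by
    intro w' H x h
    have h1 : fderiv ℝ H x = 0 := by
      have h2 : H =ᶠ[𝓝 x] fun _ => (0 : ℝ) := h
      rw [h2.fderiv_eq]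
      simp
    rw [grad_eq, h1, map_zero]
    unfold mdet
    exact AlternatingMap.map_coord_zero _ (0 : Fin (N + 1)) (by rw [Fin.cons_zero])
  have key : ∀ᵐ x : E (N + 1), (Cp Ω f z ε y).indicator (fun x => σ x * (q (f x) *
      mdet2 f x w i (∇ φ x) (EuclideanSpace.single j 1 - Dt f x l) -
        ew f j l t x * mdet2 f x w i (Dt f x (∇ q (f x))) (∇ φ x))) x =
      σ x * mdet f x w (∇ F x) -
        ∑ m, l m * (σ x * mdet f x (Function.update w i (Sum.inr m)) (∇ F x)) +
        ∑ m, σ x * mdet f x (Function.update w i (Sum.inr m)) (∇ (G m) x) := by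
    filter_upwards [hφd, ae_diff hf] with x hx1 hx2
    by_cases hxW : x ∈ Cp Ω f z ε y
    · have hfd : DifferentiableAt ℝ f x := hx2 (hWΩ hxW)
      have hnear : ∀ᶠ x' in 𝓝 x, x' ∈ Cp Ω f z ε y := hWo.mem_nhds hxW
      have hqd : ∀ z', DifferentiableAt ℝ q z' := fun z' =>
        (hq.1.differentiable (by simp)) z'
      have hdqd : ∀ m z', DifferentiableAt ℝ (dq m) z' := fun m z' =>
        ((hdq m).1.differentiable (by simp)) z'
      have hcomp : ∀ r : E (N + 1) → ℝ, (∀ z', DifferentiableAt ℝ r z') →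
          DifferentiableAt ℝ (fun x' => r (f x')) x := fun r hr => (hr (f x)).comp x hfd
      have gF : ∇ F x = q (f x) • ∇ φ x + φ x • Dt f x (∇ q (f x)) := by
        have h1 : F =ᶠ[𝓝 x] fun x' => q (f x') * φ x' := by
          filter_upwards [hnear] with x' hx'
          simp only [F, indicator_of_mem hx']
        rw [grad_eq, h1.fderiv_eq, ← grad_eq, grad_mul (hcomp q hqd) hx1,
          grad_comp_map hfd (hqd _)]
      have gG : ∀ m, ∇ (G m) x = dq m (f x) • (φ x • (EuclideanSpace.single j 1 - Dt f x l) +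
          ew f j l t x • ∇ φ x) + (φ x * ew f j l t x) • Dt f x (∇ (dq m) (f x)) := by
        intro m
        have h1 : G m =ᶠ[𝓝 x] fun x' => (dq m (f x') * ew f j l t x') * φ x' := by
          filter_upwards [hnear] with x' hx'
          simp only [G, indicator_of_mem hx']
        obtain ⟨he1, he2⟩ := diff_ew hfd j l t
        have hd3 : DifferentiableAt ℝ (fun x' => dq m (f x') * ew f j l t x') x :=
          (hcomp _ (hdqd m)).mul he1
        rw [grad_eq, h1.fderiv_eq, ← grad_eq,
          grad_mul hd3 hx1, grad_mul (hcomp _ (hdqd m)) he1, he2,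
          grad_comp_map hfd (hdqd m _)]
        module
      have hsymm : ∀ m k : Fin (N + 1), (∇ (dq m) (f x)) k = (∇ (dq k) (f x)) m := by
        intro m k
        have h1 : ∀ a b : Fin (N + 1), (∇ (dq a) (f x)) b =
            fderiv ℝ (fderiv ℝ q) (f x) (EuclideanSpace.single b 1)
              (EuclideanSpace.single a 1) := by
          intro a b
          rw [grad_apply]
          have h2 : DifferentiableAt ℝ (fderiv ℝ q) (f x) :=
            ((hq.1.fderiv_right (m := ∞) (by simp)).differentiable (by simp)) _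
          have h3 : HasFDerivAt (dq a) ((fderiv ℝ (fderiv ℝ q) (f x)).flip
              (EuclideanSpace.single a 1)) (f x) := by
            have := h2.hasFDerivAt.clm_apply (hasFDerivAt_const
              (EuclideanSpace.single a (1 : ℝ)) (f x))
            simpa using this
          rw [h3.fderiv]
          rfl
        rw [h1, h1]
        have h4 : IsSymmSndFDerivAt ℝ q (f x) :=
          hq.1.contDiffAt.isSymmSndFDerivAt (by
            rw [minSmoothness_of_isRCLikeNormedField]
            exact WithTop.coe_le_coe.2 (le_top : (2 : ℕ∞) ≤ ⊤))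
        exact h4 _ _
      rw [indicator_of_mem hxW]
      have hid := bil_identity (bil f x w i) (bil_self f x w i) (∇ φ x)
        (EuclideanSpace.single j 1) (Dt f x l) (Dt f x (∇ q (f x)))
        (fun m => Dt f x (EuclideanSpace.single m 1)) (fun m => Dt f x (∇ (dq m) (f x)))
        (fun m => l m) (fun m => dq m (f x)) (fun m k => (∇ (dq m) (f x)) k) hsymm
        (Dt_sum f x l) (by
          rw [Dt_sum f x (∇ q (f x))]
          refine Finset.sum_congr rfl fun m _ => ?_
          rw [grad_apply]) (fun m => Dt_sum f x _) (q (f x)) (φ x) (ew f j l t x)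
      have e0 : mdet f x w (∇ F x) =
          bil f x w i (q (f x) • ∇ φ x + φ x • Dt f x (∇ q (f x))) (EuclideanSpace.single j 1) := by
        rw [mdet_eq f x w i, gF, hwi]
        rfl
      have e1 : ∀ m, mdet f x (Function.update w i (Sum.inr m)) (∇ F x) =
          bil f x w i (q (f x) • ∇ φ x + φ x • Dt f x (∇ q (f x)))
            (Dt f x (EuclideanSpace.single m 1)) := by
        intro m
        rw [mdet_update, gF]
        rfl
      have e2 : ∀ m, mdet f x (Function.update w i (Sum.inr m)) (∇ (G m) x) =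
          bil f x w i (dq m (f x) • (φ x • (EuclideanSpace.single j 1 - Dt f x l) +
          ew f j l t x • ∇ φ x) + (φ x * ew f j l t x) • Dt f x (∇ (dq m) (f x)))
            (Dt f x (EuclideanSpace.single m 1)) := by
        intro m
        rw [mdet_update, gG]
        rfl
      have e3 : ∑ m, l m * (σ x * mdet f x (Function.update w i (Sum.inr m)) (∇ F x)) =
          σ x * ∑ m, l m * bil f x w i (q (f x) • ∇ φ x + φ x • Dt f x (∇ q (f x)))
            (Dt f x (EuclideanSpace.single m 1)) := by
        rw [Finset.mul_sum]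
        refine Finset.sum_congr rfl fun m _ => ?_
        rw [e1]; ring
      have e4 : ∑ m, σ x * mdet f x (Function.update w i (Sum.inr m)) (∇ (G m) x) =
          σ x * ∑ m, bil f x w i (dq m (f x) • (φ x • (EuclideanSpace.single j 1 - Dt f x l) +
          ew f j l t x • ∇ φ x) + (φ x * ew f j l t x) • Dt f x (∇ (dq m) (f x)))
            (Dt f x (EuclideanSpace.single m 1)) := by
        rw [Finset.mul_sum]
        refine Finset.sum_congr rfl fun m _ => ?_
        rw [e2]
      rw [e3, e4, e0, hid, ← bil_apply, ← bil_apply]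
      ring
    · rw [indicator_of_notMem hxW]
      have hF0 : ∀ᶠ x' in 𝓝 x, F x' = 0 := by
        by_cases hxΩ : x ∈ Ω
        · rcases cut_cases (y := y) hΩ hfc hq.2.2 hxΩ with h | h
          · exact absurd h hxW
          · filter_upwards [h] with x' hx'
            simp only [F, hx', zero_mul]
        · have hx3 : x ∉ tsupport φ := fun h => hxΩ (hφ.2.2 h)
          filter_upwards [(isClosed_tsupport φ).isOpen_compl.mem_nhds hx3] with x' hx'
          simp only [F, image_eq_zero_of_notMem_tsupport hx', mul_zero]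
      have hG0 : ∀ m, ∀ᶠ x' in 𝓝 x, G m x' = 0 := by
        intro m
        by_cases hxΩ : x ∈ Ω
        · rcases cut_cases (y := y) hΩ hfc (hdq m).2.2 hxΩ with h | h
          · exact absurd h hxW
          · filter_upwards [h] with x' hx'
            simp only [G, hx', zero_mul]
        · have hx3 : x ∉ tsupport φ := fun h => hxΩ (hφ.2.2 h)
          filter_upwards [(isClosed_tsupport φ).isOpen_compl.mem_nhds hx3] with x' hx'
          simp only [G, image_eq_zero_of_notMem_tsupport hx', mul_zero]
      simp only [zero_of _ F x hF0, zero_of _ (G _) x (hG0 _), mul_zero, Finset.sum_const_zero,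
        sub_zero, add_zero]
  unfold Loc
  have s1 : Integrable fun x => ∑ m, l m *
      (σ x * mdet f x (Function.update w i (Sum.inr m)) (∇ F x)) :=
    integrable_finset_sum _ fun m _ => i1 m
  have s2 : Integrable fun x => ∑ m, σ x *
      mdet f x (Function.update w i (Sum.inr m)) (∇ (G m) x) :=
    integrable_finset_sum _ fun m _ => i2 m
  have s3 : Integrable fun x => σ x * mdet f x w (∇ F x) - ∑ m, l m *
      (σ x * mdet f x (Function.update w i (Sum.inr m)) (∇ F x)) := i0.sub s1
  rw [← integral_indicator hWo.measurableSet, integral_congr_ae key,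
    integral_add s3 s2, integral_sub i0 s1,
    integral_finset_sum _ fun m _ => i1 m, integral_finset_sum _ fun m _ => i2 m]
  simp only [integral_const_mul, z1, z2, mul_zero, Finset.sum_const_zero, sub_zero, add_zero]

end Pool.Agent.Lib.MP_abd978_an.UN.H30
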