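import Pool.Agent.Lib.MP_abd978_an.UN.H30.Dual3
import Pool.Agent.Lib.MP_abd978_an.H49.Potx

/-!
# DUAL
-/

set_option autoImplicit false

open MeasureTheory Metric Set Filter Topology ContDiff
open scoped Gradient RealInnerProductSpace NNReal ENNReal

namespace Pool.Agent.Lib.MP_abd978_an.UN.H30

variable {n : ℕ}

/-- dominated convergence to zero in `L^q` -/
theorem tendsto_dom {F : Type} [NormedAddCommGroup F] {q : ℝ} (hq : 1 < q)
    {μ : Measure (E n)} {g : E n → F} {Fs : ℕ → E n → F} (hg : MemLp g (ENNReal.ofReal q) μ)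
    (hF : ∀ k, AEStronglyMeasurable (Fs k) μ) (hb : ∀ k, ∀ᵐ x ∂μ, ‖Fs k x‖ ≤ ‖g x‖)
    (hlim : ∀ᵐ x ∂μ, Tendsto (fun k => Fs k x) atTop (𝓝 0)) :
    Tendsto (fun k => eLpNorm (Fs k) (ENNReal.ofReal q) μ) atTop (𝓝 0) := by
  have hq0 : 0 < q := by linarith
  have hmem : ∀ k, MemLp (Fs k) (ENNReal.ofReal q) μ := fun k => hg.mono (hF k) (hb k)
  have hint : Integrable (fun x => ‖g x‖ ^ q) μ := by
    have h1 := hg.integrable_norm_rpow (ofReal_ne_zero hq) ENNReal.ofReal_ne_top
    rwa [ENNReal.toReal_ofReal hq0.le] at h1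
  have hl : Tendsto (fun k => ∫ x, ‖Fs k x‖ ^ q ∂μ) atTop (𝓝 0) := by
    have h0 : ∫ _x : E n, (0 : ℝ) ∂μ = 0 := by simp
    rw [← h0]
    refine tendsto_integral_of_dominated_convergence _ (fun k => ?_) hint (fun k => ?_) ?_
    · exact ((hF k).norm.aemeasurable.pow_const q).aestronglyMeasurable
    · filter_upwards [hb k] with x hx
      rw [Real.norm_of_nonneg (Real.rpow_nonneg (norm_nonneg _) _)]
      exact Real.rpow_le_rpow (norm_nonneg _) hx hq0.le
    · filter_upwards [hlim] with x hx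
      have h1 := hx.norm.rpow_const (p := q) (Or.inr hq0.le)
      rwa [norm_zero, Real.zero_rpow hq0.ne'] at h1
  have e : ∀ k, eLpNorm (Fs k) (ENNReal.ofReal q) μ =
      ENNReal.ofReal ((∫ x, ‖Fs k x‖ ^ q ∂μ) ^ q⁻¹) := by
    intro k
    rw [(hmem k).eLpNorm_eq_integral_rpow_norm (ofReal_ne_zero hq) ENNReal.ofReal_ne_top,
      ENNReal.toReal_ofReal hq0.le]
  simp only [e]
  have h2 : Tendsto (fun k => (∫ x, ‖Fs k x‖ ^ q ∂μ) ^ q⁻¹) atTop
      (𝓝 ((0 : ℝ) ^ q⁻¹)) := hl.rpow_const (Or.inr (by positivity))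
  rw [Real.zero_rpow (by positivity)] at h2
  have h3 := (ENNReal.continuous_ofReal.tendsto 0).comp h2
  rw [ENNReal.ofReal_zero] at h3
  exact h3

/-- the sets of gradients of test functions close to `T` -/
def AA (p R : ℝ) (T : E n → ℝ) (j : ℕ) :
    Set (Lp (E n) (ENNReal.ofReal p) (volume : Measure (E n))) :=
  {v | ∃ ψ : E n → ℝ, Test (ball 0 R) ψ ∧ (v =ᵐ[volume] fun x => ∇ ψ x) ∧
    eLpNorm (fun x => ψ x - T x) (ENNReal.ofReal p) volume ≤ ENNReal.ofReal (1 / ((j : ℝ) + 1))}

theorem convex_AA {p : ℝ} (hp : 1 < p) (R : ℝ) {T : E n → ℝ}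
    (hT : MemLp T (ENNReal.ofReal p) volume) (j : ℕ) : Convex ℝ (AA p R T j) := by
  rintro v ⟨ψ, h1, h2, h3⟩ v' ⟨ψ', h1', h2', h3'⟩ a b ha hb hab
  have hd : ∀ x, DifferentiableAt ℝ ψ x := fun x => (h1.1.differentiable (by simp)) x
  have hd' : ∀ x, DifferentiableAt ℝ ψ' x := fun x => (h1'.1.differentiable (by simp)) x
  refine ⟨fun x => a * ψ x + b * ψ' x, ⟨?_, ?_, ?_⟩, ?_, ?_⟩
  · exact (contDiff_const.mul h1.1).add (contDiff_const.mul h1'.1)
  · exact h1.2.1.mul_left.add h1'.2.1.mul_left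
  · refine (tsupport_add _ _).trans (union_subset ?_ ?_)
    · exact (closure_mono (Function.support_mul_subset_right _ _)).trans h1.2.2
    · exact (closure_mono (Function.support_mul_subset_right _ _)).trans h1'.2.2
  · have e1 := Lp.coeFn_add (a • v) (b • v')
    have e2 := Lp.coeFn_smul a v
    have e3 := Lp.coeFn_smul b v'
    filter_upwards [e1, e2, e3, h2, h2'] with x x1 x2 x3 x4 x5
    rw [x1, Pi.add_apply, x2, x3, Pi.smul_apply, Pi.smul_apply, x4, x5,
      grad_add ((hd x).const_mul a) ((hd' x).const_mul b),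
      grad_mul (differentiableAt_const a) (hd x), grad_mul (differentiableAt_const b) (hd' x)]
    have g0 : ∀ c : ℝ, ∇ (fun _ : E n => c) x = 0 := fun c => by
      rw [grad_eq, fderiv_fun_const]
      simp
    rw [g0, g0, smul_zero, smul_zero, add_zero, add_zero]
  · have m1 : MemLp (fun x => ψ x - T x) (ENNReal.ofReal p) volume := (h1.memLp _).sub hT
    have m2 : MemLp (fun x => ψ' x - T x) (ENNReal.ofReal p) volume := (h1'.memLp _).sub hT
    have e1 : (fun x => a * ψ x + b * ψ' x - T x) =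
        (a • fun x => ψ x - T x) + (b • fun x => ψ' x - T x) := by
      funext x
      simp only [Pi.add_apply, Pi.smul_apply, smul_eq_mul]
      linear_combination (T x) * hab
    rw [e1]
    refine (eLpNorm_add_le (m1.1.const_smul a) (m2.1.const_smul b) (one_le_ofReal hp)).trans ?_
    rw [eLpNorm_const_smul, eLpNorm_const_smul, Real.enorm_eq_ofReal ha,
      Real.enorm_eq_ofReal hb]
    calc ENNReal.ofReal a * eLpNorm (fun x => ψ x - T x) (ENNReal.ofReal p) volume +
          ENNReal.ofReal b * eLpNorm (fun x => ψ' x - T x) (ENNReal.ofReal p) volume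
        ≤ ENNReal.ofReal a * ENNReal.ofReal (1 / ((j : ℝ) + 1)) +
          ENNReal.ofReal b * ENNReal.ofReal (1 / ((j : ℝ) + 1)) := by gcongr
      _ = ENNReal.ofReal (1 / ((j : ℝ) + 1)) := by
          rw [← add_mul, ← ENNReal.ofReal_add ha hb, hab, ENNReal.ofReal_one, one_mul]

/-- weak compactness -/
theorem exists_G (hN : NestStatement) {p M : ℝ} (hp : 1 < p) (hM : 0 ≤ M) {T : E n → ℝ}
    {C R R' : ℝ} (hT : Measurable T) (hb : ∀ z, |T z| ≤ C) (hs : ∀ z, R' ≤ ‖z‖ → T z = 0)
    (hR : R' < R)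
    (h : ∀ H : E n → E n, ContDiff ℝ ∞ H → HasCompactSupport H →
      |∫ z, T z * dvg H z| ≤ M * nq (dx p) volume H) :
    ∃ G : E n → E n, H0 volume p (ball 0 R) T G := by
  have hfact : Fact (1 ≤ ENNReal.ofReal p) := ⟨one_le_ofReal hp⟩
  have hTi := integrable_of_bdd hT hb hs
  have htend := tendsto_mo hp hT hb hs
  obtain ⟨k₀, hk₀⟩ : ∃ k₀ : ℕ, ∀ k, k₀ ≤ k → R' + 1 / ((k : ℝ) + 1) < R := by
    have h1 := (tendsto_one_div_add_atTop_nhds_zero_nat (𝕜 := ℝ)).const_add R'
    rw [add_zero] at h1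
    obtain ⟨k₀, hk₀⟩ := eventually_atTop.1 (h1.eventually (gt_mem_nhds hR))
    exact ⟨k₀, hk₀⟩
  have hTm : MemLp T (ENNReal.ofReal p) volume := by
    have ht := test_mo hTi hs k₀ (hk₀ k₀ le_rfl)
    obtain ⟨k₁, hk₁⟩ := eventually_atTop.1 (htend.eventually
      (gt_mem_nhds (show (0 : ℝ≥0∞) < 1 by norm_num)))
    have ht1 := test_mo hTi hs (max k₀ k₁) (hk₀ _ (le_max_left _ _))
    have h2 : MemLp (fun x => mo T (max k₀ k₁) x - T x) (ENNReal.ofReal p) volume :=
      ⟨(ht1.1.continuous.measurable.sub hT).aestronglyMeasurable,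
        (hk₁ _ (le_max_right _ _)).trans (by norm_num)⟩
    have h3 := (ht1.memLp (μ := volume) (ENNReal.ofReal p)).sub h2
    refine h3.ae_eq (Eventually.of_forall fun x => ?_)
    simp
  have hfip := hN n p volume (closedBall (0 : Lp (E n) (ENNReal.ofReal p) (volume : Measure (E n))) M) hp
    isClosed_closedBall (convex_closedBall _ _) isBounded_closedBall
  obtain ⟨G, hG1, hG2⟩ := hfip ℕ (fun j => closure (AA p R T j))
    (fun j => ⟨isClosed_closure, (convex_AA hp R hTm j).closure⟩) (by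
      intro t
      obtain ⟨N, hN⟩ : ∃ N : ℕ, ∀ j ∈ t, j ≤ N := ⟨t.sup id, fun j hj => Finset.le_sup (f := id) hj⟩
      obtain ⟨k₁, hk₁⟩ := eventually_atTop.1 (htend.eventually
        (gt_mem_nhds (show (0 : ℝ≥0∞) < ENNReal.ofReal (1 / ((N : ℝ) + 1)) by
          rw [ENNReal.ofReal_pos]; positivity)))
      set k := max k₀ k₁ with hk
      have ht := test_mo hTi hs k (hk₀ k (le_max_left _ _))
      have hgm := ht.memLp_grad (μ := volume) (ENNReal.ofReal p)
      refine ⟨hgm.toLp _, ?_, ?_⟩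
      · rw [mem_closedBall, dist_zero_right, Lp.norm_toLp]
        exact nq_grad_mo_le hp hM hTi hs h k
      · simp only [mem_iInter]
        intro j hj
        refine subset_closure ⟨mo T k, ht, hgm.coeFn_toLp, ?_⟩
        refine (hk₁ k (le_max_right _ _)).le.trans (ENNReal.ofReal_le_ofReal ?_)
        have : (j : ℝ) ≤ N := by exact_mod_cast hN j hj
        exact one_div_le_one_div_of_le (by positivity) (by linarith))
  have hex : ∀ j : ℕ, ∃ ψ : E n → ℝ, Test (ball 0 R) ψ ∧
      eLpNorm (fun x => ψ x - T x) (ENNReal.ofReal p) volume ≤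
        ENNReal.ofReal (1 / ((j : ℝ) + 1)) ∧
      eLpNorm (fun x => ∇ ψ x - G x) (ENNReal.ofReal p) volume ≤
        ENNReal.ofReal (1 / ((j : ℝ) + 1)) := by
    intro j
    have h1 : G ∈ closure (AA p R T j) := mem_iInter.1 hG2 j
    obtain ⟨v, ⟨ψ, p1, p2, p3⟩, hv⟩ := Metric.mem_closure_iff.1 h1 (1 / ((j : ℝ) + 1))
      (by positivity)
    refine ⟨ψ, p1, p3, ?_⟩
    rw [dist_comm, dist_eq_norm, Lp.norm_def] at hv
    have h2 : eLpNorm (fun x => ∇ ψ x - G x) (ENNReal.ofReal p) volume =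
        eLpNorm (⇑(v - G)) (ENNReal.ofReal p) volume := by
      refine eLpNorm_congr_ae ?_
      filter_upwards [Lp.coeFn_sub v G, p2] with x x1 x2
      rw [x1, Pi.sub_apply, x2]
    rw [h2, ENNReal.le_ofReal_iff_toReal_le (Lp.eLpNorm_ne_top _) (by positivity)]
    exact hv.le
  choose ψ h1 h2 h3 using hex
  have hz : Tendsto (fun j : ℕ => ENNReal.ofReal (1 / ((j : ℝ) + 1))) atTop (𝓝 0) := by
    have := (ENNReal.continuous_ofReal.tendsto 0).comp
      (tendsto_one_div_add_atTop_nhds_zero_nat (𝕜 := ℝ))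
    rw [ENNReal.ofReal_zero] at this
    exact this
  refine ⟨G, hTm, Lp.memLp G, ψ, h1, ?_, ?_⟩
  · exact tendsto_of_tendsto_of_tendsto_of_le_of_le tendsto_const_nhds hz (fun _ => bot_le) h2
  · exact tendsto_of_tendsto_of_tendsto_of_le_of_le tendsto_const_nhds hz (fun _ => bot_le) h3

/-- the gradient of `T` against smooth fields -/
theorem pair_G {p : ℝ} (hp : 1 < p) {D : Set (E n)} {T : E n → ℝ} {G : E n → E n}
    (h : H0 volume p D T G) {H : E n → E n} (hH : ContDiff ℝ ∞ H) (hc : HasCompactSupport H) :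
    ∫ x, ⟪H x, G x⟫ = - ∫ x, T x * dvg H x := by
  obtain ⟨h1, h2, ψ, h3, h4, h5⟩ := h
  have hHm : MemLp H (ENNReal.ofReal (dx p)) volume :=
    hH.continuous.memLp_of_hasCompactSupport hc
  have hdm : MemLp (dvg H) (ENNReal.ofReal (dx p)) volume :=
    (continuous_dvg hH).memLp_of_hasCompactSupport (hasCompactSupport_dvg hc)
  have t1 := pair_tendsto hp hHm h2 (fun i => (h3 i).memLp_grad _) h5
  have t2 := pair_tendsto hp hdm h1 (fun i => (h3 i).memLp _) h4
  have e1 : ∀ i, ∫ x, ⟪H x, ∇ (ψ i) x⟫ = -∫ x, (⟪dvg H x, ψ i x⟫ : ℝ) := by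
    intro i
    have := ibp (h3 i).1 hH hc
    have e2 : ∫ x, (⟪dvg H x, ψ i x⟫ : ℝ) = ∫ x, ψ i x * dvg H x := by
      refine integral_congr_ae (Eventually.of_forall fun x => ?_)
      simp
    rw [e2, this, neg_neg]
  simp only [e1] at t1
  have t3 := tendsto_nhds_unique t1 t2.neg
  rw [t3]
  congr 1

/-- smooth fields with compact support in the ball are dense -/
theorem dense_fields {q R : ℝ} (hq : 1 < q) (hR : 0 < R) {H : E n → E n}
    (hH : MemLp H (ENNReal.ofReal q) (volume.restrict (ball 0 R))) : ∃ Hs : ℕ → E n → E n,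
    (∀ j, ContDiff ℝ ∞ (Hs j)) ∧ (∀ j, tsupport (Hs j) ⊆ ball 0 R) ∧
    Tendsto (fun j => eLpNorm (fun x => Hs j x - H x) (ENNReal.ofReal q)
      (volume.restrict (ball 0 R))) atTop (𝓝 0) := by
  have hm : MemLp ((ball (0 : E n) R).indicator H) (ENNReal.ofReal q) volume :=
    (memLp_indicator_iff_restrict measurableSet_ball).2 hH
  have hex : ∀ j : ℕ, ∃ g : E n → E n, HasCompactSupport g ∧ ContDiff ℝ ∞ g ∧
      eLpNorm ((ball (0 : E n) R).indicator H - g) (ENNReal.ofReal q) volume ≤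
        ENNReal.ofReal (1 / ((j : ℝ) + 1)) := fun j =>
    MemLp.exist_eLpNorm_sub_le ENNReal.ofReal_ne_top (one_le_ofReal hq) hm (by positivity)
  choose g hg1 hg2 hg3 using hex
  have hr : ∀ j : ℕ, 0 < R * (1 - 1 / ((j : ℝ) + 2)) ∧
      R * (1 - 1 / ((j : ℝ) + 2)) < R * (1 - 1 / (2 * ((j : ℝ) + 2))) ∧
      R * (1 - 1 / (2 * ((j : ℝ) + 2))) < R := by
    intro j
    have hj : (0 : ℝ) ≤ j := Nat.cast_nonneg j
    have h1 : 1 / ((j : ℝ) + 2) < 1 := by
      rw [div_lt_one (by linarith)]; linarith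
    have h2 : 1 / (2 * ((j : ℝ) + 2)) < 1 / ((j : ℝ) + 2) :=
      one_div_lt_one_div_of_lt (by linarith) (by linarith)
    have h3 : 0 < 1 / (2 * ((j : ℝ) + 2)) := by positivity
    refine ⟨mul_pos hR (by linarith), mul_lt_mul_of_pos_left (by linarith) hR, ?_⟩
    calc R * (1 - 1 / (2 * ((j : ℝ) + 2))) < R * 1 := mul_lt_mul_of_pos_left (by linarith) hR
      _ = R := mul_one R
  let χ : ℕ → ContDiffBump (0 : E n) := fun j =>
    ⟨R * (1 - 1 / ((j : ℝ) + 2)), R * (1 - 1 / (2 * ((j : ℝ) + 2))), (hr j).1, (hr j).2.1⟩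
  refine ⟨fun j x => χ j x • g j x, fun j => (χ j).contDiff.smul (hg2 j), fun j => ?_, ?_⟩
  · have h1 : tsupport (fun x => χ j x • g j x) ⊆ tsupport (χ j) :=
      closure_mono fun x hx hχ => hx (by simp only [hχ, zero_smul])
    refine h1.trans ?_
    rw [(χ j).tsupport_eq]
    exact closedBall_subset_ball (hr j).2.2
  · have t1 : Tendsto (fun j => eLpNorm (fun x => (χ j x - 1) • H x) (ENNReal.ofReal q)
        (volume.restrict (ball 0 R))) atTop (𝓝 0) := by
      refine tendsto_dom hq hH (fun j => ?_) (fun j => ?_) ?_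
      · exact (((χ j).continuous.sub continuous_const).aestronglyMeasurable).smul hH.1
      · refine Eventually.of_forall fun x => ?_
        rw [norm_smul]
        refine mul_le_of_le_one_left (norm_nonneg _) ?_
        rw [Real.norm_eq_abs, abs_le]
        constructor <;> linarith [(χ j).nonneg (x := x), (χ j).le_one (x := x)]
      · rw [ae_restrict_iff' measurableSet_ball]
        refine Eventually.of_forall fun x hx => ?_
        refine tendsto_const_nhds.congr' ?_
        have hx1 : ‖x‖ < R := by simpa using hx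
        have h1 : Tendsto (fun j : ℕ => R * (1 - 1 / ((j : ℝ) + 2))) atTop (𝓝 (R * (1 - 0))) := by
          refine Tendsto.const_mul R (Tendsto.const_sub 1 ?_)
          have h2 := (tendsto_add_atTop_iff_nat (f := fun j : ℕ => 1 / ((j : ℝ) + 1)) 1).2
            (tendsto_one_div_add_atTop_nhds_zero_nat (𝕜 := ℝ))
          refine h2.congr fun j => ?_
          push_cast
          ring_nf
        rw [sub_zero, mul_one] at h1
        filter_upwards [h1.eventually (lt_mem_nhds hx1)] with j hj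
        have h3 : χ j x = 1 := (χ j).one_of_mem_closedBall (by
          rw [mem_closedBall, dist_zero_right]; exact hj.le)
        rw [h3, sub_self, zero_smul]
    have hz : Tendsto (fun j : ℕ => ENNReal.ofReal (1 / ((j : ℝ) + 1))) atTop (𝓝 0) := by
      have := (ENNReal.continuous_ofReal.tendsto 0).comp
        (tendsto_one_div_add_atTop_nhds_zero_nat (𝕜 := ℝ))
      rw [ENNReal.ofReal_zero] at this
      exact this
    have t2 := hz.add t1
    rw [add_zero] at t2
    refine tendsto_of_tendsto_of_tendsto_of_le_of_le tendsto_const_nhds t2 (fun _ => bot_le)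
      fun j => ?_
    have m1 : AEStronglyMeasurable (fun x => χ j x • (g j x - H x))
        (volume.restrict (ball (0 : E n) R)) :=
      ((χ j).continuous.aestronglyMeasurable).smul
        ((hg2 j).continuous.aestronglyMeasurable.sub hH.1)
    have m2 : AEStronglyMeasurable (fun x => (χ j x - 1) • H x)
        (volume.restrict (ball (0 : E n) R)) :=
      (((χ j).continuous.sub continuous_const).aestronglyMeasurable).smul hH.1
    have e1 : (fun x => χ j x • g j x - H x) =
        (fun x => χ j x • (g j x - H x)) + fun x => (χ j x - 1) • H x := by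
      funext x
      simp only [Pi.add_apply]
      module
    simp only [e1]
    refine (eLpNorm_add_le m1 m2 (one_le_ofReal hq)).trans ?_
    refine add_le_add_left ?_ _
    refine le_trans ?_ (hg3 j)
    refine le_trans (eLpNorm_mono_ae ?_) (eLpNorm_mono_measure _ Measure.restrict_le_self)
    rw [ae_restrict_iff' measurableSet_ball]
    refine Eventually.of_forall fun x hx => ?_
    rw [Pi.sub_apply, indicator_of_mem hx, norm_smul, norm_sub_rev (H x)]
    refine mul_le_of_le_one_left (norm_nonneg _) ?_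
    rw [Real.norm_of_nonneg (χ j).nonneg]
    exact (χ j).le_one

theorem dual (h0 : H0cStatement) (hS : SolveStatement) (hSb : SboundStatement)
    (hSc : ScontStatement) (hRi : RiemStatement) (hK : KerStatement) (hN : NestStatement) :
    DualStatement := by
  intro n p a α β R R' T Y hn hp hop hTY hRR
  have hp1 : 1 < p := hop.hp
  have hn1 : 1 ≤ n := by omega
  have hR0 := hTY.hR
  have hR : 0 < R := by linarith
  obtain ⟨C, hC⟩ := hTY.bdd
  have hβα : 0 ≤ β / α := div_nonneg (hop.hα.le.trans hop.hαβ) hop.hα.le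
  obtain ⟨G, hG⟩ := exists_G hN hp1 (mul_nonneg hβα (nq_nonneg p volume Y)) hTY.measT hC
    (fun z hz => (hTY.supp z hz).1) hRR fun H hH hc => bound2 hS hSb hK hRi hn hp hop hTY hH hc
  refine ⟨G, hG, fun u U hU => ?_⟩
  have hGm : MemLp G (ENNReal.ofReal p) volume := hG.2.1
  have hDm : MemLp (fun x => G x - Y x) (ENNReal.ofReal p) volume := hGm.sub hTY.memY
  -- smooth fields
  have key : ∀ (H : E n → E n) (u : E n → ℝ) (U : E n → E n), ContDiff ℝ ∞ H →
      tsupport H ⊆ ball 0 R → Sol p a R H u U → ∫ x, ⟪a x (U x), G x - Y x⟫ = 0 := by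
    intro H u U hH hs hsol
    have hcH : HasCompactSupport H :=
      (isCompact_closedBall (0 : E n) R).of_isClosed_subset (isClosed_tsupport H)
        (hs.trans ball_subset_closedBall)
    have hUm : MemLp U (ENNReal.ofReal p) volume := hsol.h0.2.1
    have ha := memLp_op hop hUm
    have e1 := basic hK hRi hn hp hR hop hTY hRR hH hs hsol
    have e2 : ∫ x, ⟪a x (U x), G x⟫ = - ∫ z, T z * dvg H z := by
      rw [hsol.eqn T G hG, pair_G hp1 hG hH hcH]
    simp only [inner_sub_right]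
    rw [integral_sub (integrable_pair hp1 ha hGm) (integrable_pair hp1 ha hTY.memY), e1, e2]
    ring
  -- general case
  obtain ⟨C', -, hC'⟩ := h0 n p hn1 hp
  obtain ⟨u', hu1, hu2, -, -⟩ := hC' (ball 0 R) 0 R u U hR isOpen_ball subset_rfl hU
  have hU' : H0 volume p (ball 0 R) u' U := H49.H0.congr hU hu2.symm (ae_eq_refl U)
  have hsol : Sol p a R (fun x => a x (U x)) u' U := ⟨hU', hu1, fun ψ V _ => rfl⟩
  have hUm : MemLp U (ENNReal.ofReal p) volume := hU.2.1
  have hHm : MemLp (fun x => a x (U x)) (ENNReal.ofReal (dx p)) (volume.restrict (ball 0 R)) :=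
    (memLp_op hop hUm).restrict _
  obtain ⟨Hs, s1, s2, s3⟩ := dense_fields (dx_gt hp1) hR hHm
  have s4 : ∀ j, MemLp (Hs j) (ENNReal.ofReal (dx p)) (volume.restrict (ball 0 R)) := fun j =>
    ((s1 j).continuous.memLp_of_hasCompactSupport (μ := volume)
      ((isCompact_closedBall (0 : E n) R).of_isClosed_subset (isClosed_tsupport _)
        ((s2 j).trans ball_subset_closedBall))).restrict _
  choose us Us hus using fun j => hS n p a α β R (Hs j) hn1 hp hop hR (s4 j)
  have t := hSc n p a α β R _ Hs u' U us Us (fun x => G x - Y x) hn1 hp hop hR hHm s4 s3 hsol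
    hus hDm
  have t2 : Tendsto (fun j => ∫ x, ⟪a x (Us j x), G x - Y x⟫) atTop (𝓝 0) := by
    have : ∀ j, ∫ x, ⟪a x (Us j x), G x - Y x⟫ = 0 := fun j =>
      key (Hs j) (us j) (Us j) (s1 j) (s2 j) (hus j)
    simp only [this]
    exact tendsto_const_nhds
  exact tendsto_nhds_unique t t2

end Pool.Agent.Lib.MP_abd978_an.UN.H30
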