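import Pool.Agent.Lib.MP_abd978_an.UN.H30.LL

/-!
# The determinants `mdet`, `mdet2` (tools for ALG)
-/

set_option autoImplicit false

open MeasureTheory Metric Set Filter Topology ContDiff
open scoped Gradient RealInnerProductSpace NNReal ENNReal

namespace Pool.Agent.Lib.MP_abd978_an.UN.H30

variable {N : ℕ}

/-- the bilinear form `(v, v') ↦ mdet2 f x w i v v'` -/
noncomputable def bil (f : E (N + 1) → E (N + 1)) (x : E (N + 1))
    (w : Fin N → Fin (N + 1) ⊕ Fin (N + 1)) (i : Fin N) :
    E (N + 1) →ₗ[ℝ] E (N + 1) →ₗ[ℝ] ℝ :=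
  LinearMap.mk₂ ℝ (mdet2 f x w i)
    (fun v₁ v₂ v' => by
      unfold mdet2
      rw [← Fin.update_cons_zero (0 : E (N + 1)), AlternatingMap.map_update_add,
        Fin.update_cons_zero, Fin.update_cons_zero])
    (fun c v v' => by
      unfold mdet2
      rw [← Fin.update_cons_zero (0 : E (N + 1)), AlternatingMap.map_update_smul,
        Fin.update_cons_zero])
    (fun v v₁ v₂ => by
      unfold mdet2
      rw [Fin.cons_update, AlternatingMap.map_update_add, ← Fin.cons_update, ← Fin.cons_update])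
    (fun c v v' => by
      unfold mdet2
      rw [Fin.cons_update, AlternatingMap.map_update_smul, ← Fin.cons_update])

theorem bil_apply (f : E (N + 1) → E (N + 1)) (x : E (N + 1))
    (w : Fin N → Fin (N + 1) ⊕ Fin (N + 1)) (i : Fin N) (v v' : E (N + 1)) :
    bil f x w i v v' = mdet2 f x w i v v' := rfl

theorem bil_self (f : E (N + 1) → E (N + 1)) (x : E (N + 1))
    (w : Fin N → Fin (N + 1) ⊕ Fin (N + 1)) (i : Fin N) (v : E (N + 1)) :
    bil f x w i v v = 0 := by
  rw [bil_apply]
  unfold mdet2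
  refine AlternatingMap.map_eq_zero_of_eq _ _ (i := 0) (j := i.succ) ?_ (Fin.succ_ne_zero i).symm
  rw [Fin.cons_zero, Fin.cons_succ, Function.update_self]

theorem mdet_eq (f : E (N + 1) → E (N + 1)) (x : E (N + 1))
    (w : Fin N → Fin (N + 1) ⊕ Fin (N + 1)) (i : Fin N) (v : E (N + 1)) :
    mdet f x w v = bil f x w i v (col f x (w i)) := by
  rw [bil_apply]
  unfold mdet2 mdet
  congr 2
  rw [Function.update_eq_self]

theorem mdet_update (f : E (N + 1) → E (N + 1)) (x : E (N + 1))
    (w : Fin N → Fin (N + 1) ⊕ Fin (N + 1)) (i : Fin N) (a : Fin (N + 1) ⊕ Fin (N + 1))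
    (v : E (N + 1)) :
    mdet f x (Function.update w i a) v = bil f x w i v (col f x a) := by
  rw [bil_apply]
  unfold mdet2 mdet
  congr 2
  funext k
  by_cases hk : k = i
  · subst hk; simp
  · simp [Function.update_of_ne hk]

/-- the algebraic identity behind ALG -/
theorem bil_identity {V : Type} [AddCommGroup V] [Module ℝ V] {ι : Type} [Fintype ι]
    (B : V →ₗ[ℝ] V →ₗ[ℝ] ℝ) (hB : ∀ v, B v v = 0) (a ej Ll Lq : V) (c h : ι → V)
    (l dq : ι → ℝ) (s : ι → ι → ℝ) (hs : ∀ m k, s m k = s k m) (hLl : Ll = ∑ m, l m • c m)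
    (hLq : Lq = ∑ m, dq m • c m) (hh : ∀ m, h m = ∑ k, s m k • c k) (q φ e : ℝ) :
    B (q • a + φ • Lq) ej = (q * B a (ej - Ll) - e * B Lq a) +
      ∑ m, l m * B (q • a + φ • Lq) (c m) -
      ∑ m, B (dq m • (φ • (ej - Ll) + e • a) + (φ * e) • h m) (c m) := by
  have hanti : ∀ v v', B v v' = -B v' v := by
    intro v v'
    have h1 := hB (v + v')
    rw [map_add, map_add, LinearMap.add_apply, LinearMap.add_apply, hB, hB] at h1
    linarith
  have h1 : ∑ m, l m * B (q • a + φ • Lq) (c m) = B (q • a + φ • Lq) Ll := by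
    rw [hLl, map_sum]
    refine Finset.sum_congr rfl fun m _ => ?_
    rw [map_smul, smul_eq_mul]
  have h2 : ∀ X : V, ∑ m, B (dq m • X) (c m) = B X Lq := by
    intro X
    rw [hLq, map_sum]
    refine Finset.sum_congr rfl fun m _ => ?_
    rw [map_smul, LinearMap.smul_apply, map_smul]
  have h3 : ∑ m, B (h m) (c m) = 0 := by
    have e1 : ∑ m, B (h m) (c m) = ∑ m, ∑ k, s m k * B (c k) (c m) := by
      refine Finset.sum_congr rfl fun m _ => ?_
      rw [hh, map_sum, LinearMap.sum_apply]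
      refine Finset.sum_congr rfl fun k _ => ?_
      rw [map_smul, LinearMap.smul_apply, smul_eq_mul]
    have e2 : ∑ m, ∑ k, s m k * B (c k) (c m) = -∑ m, ∑ k, s m k * B (c k) (c m) := by
      conv_lhs => rw [Finset.sum_comm]
      rw [← Finset.sum_neg_distrib]
      refine Finset.sum_congr rfl fun m _ => ?_
      rw [← Finset.sum_neg_distrib]
      refine Finset.sum_congr rfl fun k _ => ?_
      rw [hs k m, hanti (c m) (c k)]
      ring
    rw [e1]
    linarith
  have h4 : ∑ m, B (dq m • (φ • (ej - Ll) + e • a) + (φ * e) • h m) (c m) =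
      B (φ • (ej - Ll) + e • a) Lq + (φ * e) * ∑ m, B (h m) (c m) := by
    rw [← h2, Finset.mul_sum, ← Finset.sum_add_distrib]
    refine Finset.sum_congr rfl fun m _ => ?_
    rw [map_add, LinearMap.add_apply, map_smul (B) (φ * e) (h m), LinearMap.smul_apply,
      smul_eq_mul]
  rw [h1, h4, h3]
  simp only [map_add, map_smul, map_sub, LinearMap.add_apply, LinearMap.smul_apply,
    LinearMap.sub_apply, smul_eq_mul]
  rw [hanti ej Lq, hanti Ll Lq, hanti a Lq]
  ring

/-! ### Measurability and bounds -/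

theorem bdet_apply (v : Fin (N + 1) → E (N + 1)) :
    bdet N v = Matrix.det (Matrix.of fun i j => v j i) := by
  unfold bdet
  rw [Module.Basis.det_apply]
  congr 1

theorem abs_bdet_le (v : Fin (N + 1) → E (N + 1)) (M : ℝ) (h : ∀ j, ‖v j‖ ≤ M) :
    |bdet N v| ≤ (Nat.factorial (N + 1) : ℝ) * M ^ (N + 1) := by
  rw [bdet_apply]
  have h1 := Matrix.det_le (A := Matrix.of fun i j => v j i) (abv := AbsoluteValue.abs)
    (x := M) (fun i j => (PiLp.norm_apply_le (v j) i).trans (h j))
  simpa using h1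

theorem measurable_bdet {α : Type} [MeasurableSpace α] (v : α → Fin (N + 1) → E (N + 1))
    (h : ∀ j, Measurable fun x => v x j) : Measurable fun x => bdet N (v x) := by
  simp only [bdet_apply, Matrix.det_apply]
  refine Finset.measurable_fun_sum _ fun σ _ => ?_
  refine Measurable.const_smul ?_ _
  refine Finset.measurable_fun_prod _ fun i _ => ?_
  exact (EuclideanSpace.proj (𝕜 := ℝ) (σ i)).continuous.measurable.comp (h i)

theorem measurable_Dt (f : E (N + 1) → E (N + 1)) (v : E (N + 1)) :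
    Measurable fun x => Dt f x v := by
  unfold Dt
  have h1 : Measurable fun x => ContinuousLinearMap.adjoint (fderiv ℝ f x) :=
    (ContinuousLinearMap.adjoint (𝕜 := ℝ) (E := E (N + 1)) (F := E (N + 1))).continuous.measurable.comp
      (measurable_fderiv ℝ f)
  exact (ContinuousLinearMap.apply ℝ (E (N + 1)) v).continuous.measurable.comp h1

theorem measurable_col (f : E (N + 1) → E (N + 1)) (a : Fin (N + 1) ⊕ Fin (N + 1)) :
    Measurable fun x => col f x a := by
  rcases a with j | l
  · exact measurable_const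
  · exact measurable_Dt f _

theorem measurable_grad (F : E (N + 1) → ℝ) : Measurable fun x => ∇ F x :=
  (InnerProductSpace.toDual ℝ (E (N + 1))).symm.continuous.measurable.comp (measurable_fderiv ℝ F)

theorem measurable_mdet (f : E (N + 1) → E (N + 1)) (w : Fin N → Fin (N + 1) ⊕ Fin (N + 1))
    (F : E (N + 1) → ℝ) : Measurable fun x => mdet f x w (∇ F x) := by
  unfold mdet
  refine measurable_bdet _ fun j => ?_
  refine Fin.cases ?_ (fun k => ?_) j
  · simpa using measurable_grad F
  · simpa using measurable_col f (w k)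

theorem norm_col_le (f : E (N + 1) → E (N + 1)) (x : E (N + 1))
    (a : Fin (N + 1) ⊕ Fin (N + 1)) (M : ℝ) (hM : 1 ≤ M) (h : ‖fderiv ℝ f x‖ ≤ M) :
    ‖col f x a‖ ≤ M := by
  rcases a with j | l
  · change ‖EuclideanSpace.single j (1 : ℝ)‖ ≤ M
    simpa using hM
  · change ‖Dt f x (EuclideanSpace.single l (1 : ℝ))‖ ≤ M
    refine (ContinuousLinearMap.le_opNorm _ _).trans ?_
    unfold Dt
    rw [LinearIsometryEquiv.norm_map]
    simpa using h

/-- integrability of the integrands of `P(k)` -/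
theorem integrable_sig {p : ℝ} {Ω : Set (E (N + 1))} {f : E (N + 1) → E (N + 1)}
    {σ : E (N + 1) → ℝ} (hS : Sig p Ω f) (hσ : SigF p Ω f σ)
    (w : Fin N → Fin (N + 1) ⊕ Fin (N + 1)) {F : E (N + 1) → ℝ} (hF : LipC Ω F) :
    Integrable fun x => σ x * mdet f x w (∇ F x) := by
  obtain ⟨⟨K, hK⟩, hc, hsub⟩ := hF
  obtain ⟨M, hM0, hM⟩ := fderiv_bdd hS.loclip hc hsub
  obtain ⟨C, hC⟩ := hσ.bound
  set B : ℝ := max (max 1 M) K with hB
  have hB1 : 1 ≤ B := (le_max_left 1 M).trans (le_max_left _ _)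
  have hBM : M ≤ B := (le_max_right 1 M).trans (le_max_left _ _)
  have hBK : (K : ℝ) ≤ B := le_max_right _ _
  have hp : 0 < p - ((N : ℝ) + 1) := by have := hS.hp; linarith
  have hmeas : Measurable fun x => σ x * mdet f x w (∇ F x) :=
    hσ.meas.mul (measurable_mdet f w F)
  set c₀ : ℝ := |C| * B ^ (p - ((N : ℝ) + 1)) * ((Nat.factorial (N + 1) : ℝ) * B ^ (N + 1)) with hc₀
  have hint : Integrable ((tsupport F).indicator fun _ : E (N + 1) => c₀) := by
    rw [integrable_indicator_iff (isClosed_tsupport F).measurableSet]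
    exact integrableOn_const hc.measure_lt_top.ne
  refine hint.mono' hmeas.aestronglyMeasurable ?_
  filter_upwards [hC] with x hx
  by_cases hxs : x ∈ tsupport F
  · rw [indicator_of_mem hxs, norm_mul]
    have h1 : ‖fderiv ℝ f x‖ ≤ B := (hM x hxs).trans hBM
    have h2 : |σ x| ≤ |C| * B ^ (p - ((N : ℝ) + 1)) := by
      refine (hx (hsub hxs)).trans ?_
      have h3 : ‖fderiv ℝ f x‖ ^ (p - ((N : ℝ) + 1)) ≤ B ^ (p - ((N : ℝ) + 1)) :=
        Real.rpow_le_rpow (norm_nonneg _) h1 hp.le
      have h4 : C * ‖fderiv ℝ f x‖ ^ (p - ((N : ℝ) + 1)) ≤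
          |C| * ‖fderiv ℝ f x‖ ^ (p - ((N : ℝ) + 1)) :=
        mul_le_mul_of_nonneg_right (le_abs_self C) (Real.rpow_nonneg (norm_nonneg _) _)
      exact h4.trans (mul_le_mul_of_nonneg_left h3 (abs_nonneg C))
    have h5 : |mdet f x w (∇ F x)| ≤ (Nat.factorial (N + 1) : ℝ) * B ^ (N + 1) := by
      unfold mdet
      refine abs_bdet_le _ B fun j => ?_
      refine Fin.cases ?_ (fun k => ?_) j
      · rw [Fin.cons_zero, norm_grad]
        exact (norm_fderiv_le_of_lipschitz ℝ hK).trans hBK
      · rw [Fin.cons_succ]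
        exact norm_col_le f x (w k) B hB1 h1
    exact mul_le_mul h2 h5 (abs_nonneg _) (by positivity)
  · rw [indicator_of_notMem hxs]
    have h0 : fderiv ℝ F x = 0 := by
      have : x ∉ tsupport (fderiv ℝ F) := fun h => hxs (tsupport_fderiv_subset ℝ h)
      exact image_eq_zero_of_notMem_tsupport this
    have h1 : ∇ F x = 0 := by rw [grad_eq, h0, map_zero]
    have h2 : mdet f x w (∇ F x) = 0 := by
      rw [h1]
      unfold mdet
      exact AlternatingMap.map_coord_zero _ (0 : Fin (N + 1)) (by rw [Fin.cons_zero])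
    rw [h2, mul_zero, norm_zero]

end Pool.Agent.Lib.MP_abd978_an.UN.H30
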