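import Pool.Agent.Lib.MP_abd978_an.UN.Interfaces

/-!
# DUAL, part 1: pairings, divergence, integration by parts
-/

set_option autoImplicit false

open MeasureTheory Metric Set Filter Topology ContDiff
open scoped Gradient RealInnerProductSpace NNReal ENNReal

namespace Pool.Agent.Lib.MP_abd978_an.UN.H30

variable {n : ℕ}

/-! ### Conjugate exponents and pairings -/

theorem conj_dx {p : ℝ} (hp : 1 < p) : (dx p).HolderConjugate p :=
  (Real.HolderConjugate.conjExponent hp).symm

theorem dx_gt {p : ℝ} (hp : 1 < p) : 1 < dx p := (conj_dx hp).lt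

theorem ofReal_ne_zero {q : ℝ} (hq : 1 < q) : ENNReal.ofReal q ≠ 0 := by
  rw [Ne, ENNReal.ofReal_eq_zero]
  linarith

/-- the `L^q` norm as a real number -/
noncomputable def nq {F : Type} [NormedAddCommGroup F] (q : ℝ) (μ : Measure (E n))
    (H : E n → F) : ℝ := (eLpNorm H (ENNReal.ofReal q) μ).toReal

theorem nq_nonneg {F : Type} [NormedAddCommGroup F] (q : ℝ) (μ : Measure (E n))
    (H : E n → F) : 0 ≤ nq q μ H := ENNReal.toReal_nonneg

theorem nq_eq {F : Type} [NormedAddCommGroup F] {q : ℝ} (hq : 1 < q) {μ : Measure (E n)}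
    {H : E n → F} (h : MemLp H (ENNReal.ofReal q) μ) :
    nq q μ H = (∫ x, ‖H x‖ ^ q ∂μ) ^ (1 / q) := by
  unfold nq
  rw [h.eLpNorm_eq_integral_rpow_norm (ofReal_ne_zero hq) ENNReal.ofReal_ne_top,
    ENNReal.toReal_ofReal (by linarith : (0 : ℝ) ≤ q), ENNReal.toReal_ofReal, one_div]
  exact Real.rpow_nonneg (integral_nonneg fun x => Real.rpow_nonneg (norm_nonneg _) _) _

theorem nq_sub_le {F : Type} [NormedAddCommGroup F] {q : ℝ} (hq : 1 < q) {μ : Measure (E n)}
    {H K : E n → F} (h : MemLp H (ENNReal.ofReal q) μ) (k : MemLp K (ENNReal.ofReal q) μ) :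
    nq q μ K ≤ nq q μ H + nq q μ (fun x => H x - K x) := by
  unfold nq
  have hs : MemLp (fun x => H x - K x) (ENNReal.ofReal q) μ := h.sub k
  rw [← ENNReal.toReal_add h.2.ne hs.2.ne]
  refine ENNReal.toReal_mono (ENNReal.add_ne_top.2 ⟨h.2.ne, hs.2.ne⟩) ?_
  have h1 : K = H - fun x => H x - K x := by
    funext x; simp
  conv_lhs => rw [h1]
  exact eLpNorm_sub_le h.1 hs.1 (one_le_ofReal hq)

theorem nq_mono {F : Type} [NormedAddCommGroup F] {q : ℝ} {μ : Measure (E n)}
    {H K : E n → F} (k : MemLp K (ENNReal.ofReal q) μ) (h : ∀ x, ‖H x‖ ≤ ‖K x‖) :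
    nq q μ H ≤ nq q μ K :=
  ENNReal.toReal_mono k.2.ne (eLpNorm_mono h)

theorem integrable_pair {F : Type} [NormedAddCommGroup F] [InnerProductSpace ℝ F] {p : ℝ}
    (hp : 1 < p) {μ : Measure (E n)} {K V : E n → F}
    (hK : MemLp K (ENNReal.ofReal (dx p)) μ) (hV : MemLp V (ENNReal.ofReal p) μ) :
    Integrable (fun x => (⟪K x, V x⟫ : ℝ)) μ := by
  have := (conj_dx hp).ennrealOfReal
  have h1 : Integrable ((fun x => ‖K x‖) * fun x => ‖V x‖) μ :=
    MemLp.integrable_mul hK.norm hV.norm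
  refine h1.mono (hK.1.inner hV.1) (Eventually.of_forall fun x => ?_)
  rw [Pi.mul_apply, norm_mul, norm_norm, norm_norm]
  exact norm_inner_le_norm _ _

theorem abs_pair_le {F : Type} [NormedAddCommGroup F] [InnerProductSpace ℝ F] {p : ℝ}
    (hp : 1 < p) {μ : Measure (E n)} {K V : E n → F}
    (hK : MemLp K (ENNReal.ofReal (dx p)) μ) (hV : MemLp V (ENNReal.ofReal p) μ) :
    |∫ x, (⟪K x, V x⟫ : ℝ) ∂μ| ≤ nq (dx p) μ K * nq p μ V := by
  have := (conj_dx hp).ennrealOfReal
  have h1 : Integrable ((fun x => ‖K x‖) * fun x => ‖V x‖) μ :=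
    MemLp.integrable_mul hK.norm hV.norm
  rw [nq_eq (dx_gt hp) hK, nq_eq hp hV]
  refine le_trans ?_ (integral_mul_norm_le_Lp_mul_Lq (conj_dx hp) hK hV)
  refine (abs_integral_le_integral_abs).trans ?_
  refine integral_mono_of_nonneg (Eventually.of_forall fun x => abs_nonneg _) h1
    (Eventually.of_forall fun x => ?_)
  exact norm_inner_le_norm (𝕜 := ℝ) _ _

/-- a field which annihilates all gradients of test functions annihilates `H_0` -/
theorem pair_zero {p : ℝ} (hp : 1 < p) {D : Set (E n)} (hD : MeasurableSet D) {K : E n → E n}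
    (hK : MemLp K (ENNReal.ofReal (dx p)) (volume.restrict D))
    (h : ∀ ψ : E n → ℝ, Test D ψ → ∫ x, ⟪K x, ∇ ψ x⟫ = 0) {u : E n → ℝ} {V : E n → E n}
    (hV : H0 volume p D u V) : ∫ x, ⟪K x, V x⟫ = 0 := by
  have hz := (hV.ae_eq_zero hp hD).2
  obtain ⟨h1, h2, ψ, h3, h4, h5⟩ := hV
  have r1 : ∫ x, ⟪K x, V x⟫ = ∫ x in D, ⟪K x, V x⟫ := by
    rw [← integral_indicator hD]
    refine integral_congr_ae ?_
    rw [ae_restrict_iff' hD.compl] at hz
    filter_upwards [hz] with x hx
    by_cases hxD : x ∈ D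
    · rw [indicator_of_mem hxD]
    · rw [indicator_of_notMem hxD, hx hxD, inner_zero_right]
  have r2 : ∀ i, ∫ x in D, ⟪K x, ∇ (ψ i) x⟫ = 0 := by
    intro i
    rw [← h (ψ i) (h3 i), ← integral_indicator hD]
    refine integral_congr_ae (Eventually.of_forall fun x => ?_)
    by_cases hxD : x ∈ D
    · simp only [indicator_of_mem hxD]
    · simp only [indicator_of_notMem hxD]
      rw [grad_eq_zero_of_notMem (fun hx => hxD ((h3 i).2.2 hx)), inner_zero_right]
  have hV' : MemLp V (ENNReal.ofReal p) (volume.restrict D) := h2.restrict _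
  have hg : ∀ i, MemLp (fun x => ∇ (ψ i) x) (ENNReal.ofReal p) (volume.restrict D) :=
    fun i => ((h3 i).memLp_grad (μ := volume) _).restrict _
  have hb : ∀ i, |∫ x in D, ⟪K x, V x⟫| ≤ nq (dx p) (volume.restrict D) K *
      (eLpNorm (fun x => ∇ (ψ i) x - V x) (ENNReal.ofReal p) volume).toReal := by
    intro i
    have e1 : ∫ x in D, ⟪K x, V x⟫ = - ∫ x in D, ⟪K x, ∇ (ψ i) x - V x⟫ := by
      have e2 : ∫ x in D, ⟪K x, ∇ (ψ i) x - V x⟫ =
          (∫ x in D, ⟪K x, ∇ (ψ i) x⟫) - ∫ x in D, ⟪K x, V x⟫ := by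
        rw [← integral_sub (integrable_pair hp hK (hg i)) (integrable_pair hp hK hV')]
        refine integral_congr_ae (Eventually.of_forall fun x => ?_)
        simp only [inner_sub_right]
      rw [e2, r2 i]
      ring
    rw [e1, abs_neg]
    refine (abs_pair_le hp hK ((hg i).sub hV')).trans ?_
    refine mul_le_mul_of_nonneg_left ?_ (nq_nonneg _ _ _)
    refine ENNReal.toReal_mono ?_ (eLpNorm_mono_measure _ Measure.restrict_le_self)
    exact (((h3 i).memLp_grad (μ := volume) _).sub h2).2.ne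
  rw [r1]
  have hlim : Tendsto (fun i => nq (dx p) (volume.restrict D) K *
      (eLpNorm (fun x => ∇ (ψ i) x - V x) (ENNReal.ofReal p) volume).toReal) atTop (𝓝 0) := by
    have := (ENNReal.tendsto_toReal ENNReal.zero_ne_top).comp h5
    simpa using this.const_mul (nq (dx p) (volume.restrict D) K)
  have := ge_of_tendsto' hlim hb
  exact abs_nonpos_iff.1 this

/-- continuity of the pairing with a test function -/
theorem pair_tendsto {F : Type} [NormedAddCommGroup F] [InnerProductSpace ℝ F] {p : ℝ}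
    (hp : 1 < p) {K V : E n → F} {Vs : ℕ → E n → F}
    (hK : MemLp K (ENNReal.ofReal (dx p)) (volume : Measure (E n)))
    (hV : MemLp V (ENNReal.ofReal p) volume) (hVs : ∀ i, MemLp (Vs i) (ENNReal.ofReal p) volume)
    (h : Tendsto (fun i => eLpNorm (fun x => Vs i x - V x) (ENNReal.ofReal p) volume)
      atTop (𝓝 0)) :
    Tendsto (fun i => ∫ x, (⟪K x, Vs i x⟫ : ℝ)) atTop (𝓝 (∫ x, (⟪K x, V x⟫ : ℝ))) := by
  rw [tendsto_iff_dist_tendsto_zero]
  have hlim : Tendsto (fun i => nq (dx p) volume K *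
      (eLpNorm (fun x => Vs i x - V x) (ENNReal.ofReal p) volume).toReal) atTop (𝓝 0) := by
    have := (ENNReal.tendsto_toReal ENNReal.zero_ne_top).comp h
    simpa using this.const_mul (nq (dx p) volume K)
  refine squeeze_zero (fun _ => dist_nonneg) (fun i => ?_) hlim
  have e2 : ∫ x, (⟪K x, Vs i x - V x⟫ : ℝ) =
      (∫ x, (⟪K x, Vs i x⟫ : ℝ)) - ∫ x, (⟪K x, V x⟫ : ℝ) := by
    rw [← integral_sub (integrable_pair hp hK (hVs i)) (integrable_pair hp hK hV)]
    refine integral_congr_ae (Eventually.of_forall fun x => ?_)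
    simp only [inner_sub_right]
  rw [Real.dist_eq, ← e2]
  exact abs_pair_le hp hK ((hVs i).sub hV)

/-! ### The divergence -/

theorem continuous_dvg {H : E n → E n} (hH : ContDiff ℝ ∞ H) : Continuous (dvg H) := by
  unfold dvg
  refine continuous_finset_sum _ fun j _ => ?_
  have h1 : Continuous fun x => fderiv ℝ H x (EuclideanSpace.single j 1) :=
    (hH.continuous_fderiv (by simp)).clm_apply continuous_const
  exact (EuclideanSpace.proj (𝕜 := ℝ) j).continuous.comp h1

theorem dvg_eq_zero {H : E n → E n} {x : E n} (h : x ∉ tsupport H) : dvg H x = 0 := by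
  have h0 : fderiv ℝ H x = 0 := by
    have : x ∉ tsupport (fderiv ℝ H) := fun h' => h (tsupport_fderiv_subset ℝ h')
    exact image_eq_zero_of_notMem_tsupport this
  unfold dvg
  rw [h0]
  simp

theorem tsupport_dvg {H : E n → E n} : tsupport (dvg H) ⊆ tsupport H := by
  refine closure_minimal (fun x hx => ?_) (isClosed_tsupport H)
  by_contra hcon
  exact hx (dvg_eq_zero hcon)

theorem hasCompactSupport_dvg {H : E n → E n} (h : HasCompactSupport H) :
    HasCompactSupport (dvg H) :=
  h.of_isClosed_subset (isClosed_tsupport _) tsupport_dvg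

theorem dvg_congr {H K : E n → E n} {x : E n} (h : ∀ᶠ y in 𝓝 x, H y = K y) :
    dvg H x = dvg K x := by
  unfold dvg
  have : H =ᶠ[𝓝 x] K := h
  rw [this.fderiv_eq]

theorem dvg_shift (H : E n → E n) (t x : E n) : dvg (fun y => H (y + t)) x = dvg H (x + t) := by
  unfold dvg
  rw [fderiv_comp_add_right]

theorem fderiv_coord {H : E n → E n} {x : E n} (h : DifferentiableAt ℝ H x) (j : Fin n)
    (v : E n) : fderiv ℝ (fun y => H y j) x v = fderiv ℝ H x v j := by
  have h1 : HasFDerivAt (fun y => H y j) ((EuclideanSpace.proj (𝕜 := ℝ) j).comp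
      (fderiv ℝ H x)) x := (EuclideanSpace.proj (𝕜 := ℝ) j).hasFDerivAt.comp x h.hasFDerivAt
  rw [h1.fderiv]
  rfl

theorem inner_eq_sum (v w : E n) : ⟪v, w⟫ = ∑ j, v j * w j := by
  rw [PiLp.inner_apply]
  refine Finset.sum_congr rfl fun j _ => ?_
  simp [mul_comm]

theorem grad_coord (F : E n → ℝ) (x : E n) (k : Fin n) :
    (∇ F x) k = fderiv ℝ F x (EuclideanSpace.single k 1) := by
  have h1 : ⟪∇ F x, EuclideanSpace.single k (1 : ℝ)⟫ = fderiv ℝ F x (EuclideanSpace.single k 1) := by
    rw [grad_eq, InnerProductSpace.toDual_symm_apply]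
  rw [← h1, EuclideanSpace.inner_single_right]
  simp

/-- integration by parts -/
theorem ibp {ψ : E n → ℝ} {H : E n → E n} (hψ : ContDiff ℝ ∞ ψ) (hH : ContDiff ℝ ∞ H)
    (hc : HasCompactSupport H) : ∫ x, ψ x * dvg H x = - ∫ x, ⟪H x, ∇ ψ x⟫ := by
  have hcj : ∀ j, HasCompactSupport fun x => H x j := fun j =>
    hc.comp_left (g := fun v : E n => v j) (by simp)
  have hHj : ∀ j, ContDiff ℝ ∞ fun x => H x j := fun j =>
    (EuclideanSpace.proj (𝕜 := ℝ) j).contDiff.comp hH
  have hdj : ∀ (j : Fin n) x, DifferentiableAt ℝ (fun y => H y j) x := fun j x =>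
    ((hHj j).differentiable (by simp)) x
  have hdψ : ∀ x, DifferentiableAt ℝ ψ x := fun x => (hψ.differentiable (by simp)) x
  have hdH : ∀ x, DifferentiableAt ℝ H x := fun x => (hH.differentiable (by simp)) x
  have i1 : ∀ j : Fin n, Integrable fun x => ψ x *
      fderiv ℝ (fun y => H y j) x (EuclideanSpace.single j 1) := by
    intro j
    refine Continuous.integrable_of_hasCompactSupport ?_ ?_
    · exact hψ.continuous.mul (((hHj j).continuous_fderiv (by simp)).clm_apply continuous_const)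
    · exact ((hcj j).fderiv_apply ℝ _).mul_left
  have i2 : ∀ j : Fin n, Integrable fun x =>
      fderiv ℝ ψ x (EuclideanSpace.single j 1) * H x j := by
    intro j
    refine Continuous.integrable_of_hasCompactSupport ?_ ?_
    · exact ((hψ.continuous_fderiv (by simp)).clm_apply continuous_const).mul
        (hHj j).continuous
    · exact (hcj j).mul_left
  have i3 : ∀ j : Fin n, Integrable fun x => ψ x * H x j := by
    intro j
    refine Continuous.integrable_of_hasCompactSupport ?_ ?_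
    · exact hψ.continuous.mul (hHj j).continuous
    · exact (hcj j).mul_left
  have e1 : ∫ x, ψ x * dvg H x =
      ∑ j, ∫ x, ψ x * fderiv ℝ (fun y => H y j) x (EuclideanSpace.single j 1) := by
    rw [← integral_finset_sum _ fun j _ => i1 j]
    refine integral_congr_ae (Eventually.of_forall fun x => ?_)
    simp only [dvg, Finset.mul_sum]
    refine Finset.sum_congr rfl fun j _ => ?_
    rw [fderiv_coord (hdH x)]
  have e2 : ∫ x, ⟪H x, ∇ ψ x⟫ =
      ∑ j, ∫ x, fderiv ℝ ψ x (EuclideanSpace.single j 1) * H x j := by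
    rw [← integral_finset_sum _ fun j _ => i2 j]
    refine integral_congr_ae (Eventually.of_forall fun x => ?_)
    simp only [inner_eq_sum]
    refine Finset.sum_congr rfl fun j _ => ?_
    rw [grad_coord, mul_comm]
  rw [e1, e2, ← Finset.sum_neg_distrib]
  refine Finset.sum_congr rfl fun j _ => ?_
  exact integral_mul_fderiv_eq_neg_fderiv_mul_of_integrable (i2 j) (i1 j) (i3 j)
    (fun x _ => hdψ x) fun x _ => hdj j x

end Pool.Agent.Lib.MP_abd978_an.UN.H30
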