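import Pool.Agent.Lib.MP_abd978_an.UN.H30.Dual1

/-!
# DUAL, part 2: superposition of kernels
-/

set_option autoImplicit false

open MeasureTheory Metric Set Filter Topology ContDiff
open scoped Gradient RealInnerProductSpace NNReal ENNReal

namespace Pool.Agent.Lib.MP_abd978_an.UN.H30

variable {n : ℕ}

/-- the superposition of kernels -/
noncomputable def Hg (g : E n → ℝ) (x : E n) : E n := ∫ z, g z • ker z x

/-- the truncated kernel -/
noncomputable def kk (n : ℕ) (R : ℝ) : E n → E n := (ball 0 (2 * R)).indicator (ker 0)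

theorem ker_shift (z x : E n) : ker z x = ker 0 (x - z) := by
  unfold ker
  rw [sub_zero]

theorem kk_eq {R : ℝ} {z x : E n} (hz : z ∈ ball (0 : E n) R) (hx : x ∈ ball (0 : E n) R) :
    kk n R (x - z) = ker z x := by
  have h : x - z ∈ ball (0 : E n) (2 * R) := by
    rw [mem_ball_zero_iff] at *
    have := norm_sub_le x z
    linarith
  rw [kk, indicator_of_mem h, ker_shift z x]

theorem integrable_kk (hK : KerStatement) {p R : ℝ} (hn : 2 ≤ n) (hp : (n : ℝ) < p)
    (hR : 0 < R) : Integrable (kk n R) := by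
  have h1 := (hK n p (2 * R) hn hp (by linarith)).1 0
  have hp1 : 1 < p := by
    have : (2 : ℝ) ≤ n := by exact_mod_cast hn
    linarith
  have : IsFiniteMeasure (volume.restrict (ball (0 : E n) (2 * R))) :=
    ⟨by rw [Measure.restrict_apply_univ]; exact measure_ball_lt_top⟩
  have h2 : Integrable (ker (0 : E n)) (volume.restrict (ball (0 : E n) (2 * R))) :=
    h1.integrable (one_le_ofReal (dx_gt hp1))
  exact (integrable_indicator_iff measurableSet_ball).2 h2

theorem Hg_eq {g : E n → ℝ} {R : ℝ} (hg : tsupport g ⊆ ball 0 R) {x : E n}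
    (hx : x ∈ ball (0 : E n) R) : Hg g x = ∫ z, g z • kk n R (x - z) := by
  unfold Hg
  refine integral_congr_ae (Eventually.of_forall fun z => ?_)
  by_cases hz : z ∈ tsupport g
  · simp only [kk_eq (hg hz) hx]
  · simp only [image_eq_zero_of_notMem_tsupport hz, zero_smul]

theorem continuous_conv (hK : KerStatement) {p R : ℝ} (hn : 2 ≤ n) (hp : (n : ℝ) < p)
    (hR : 0 < R) {g : E n → ℝ} (hgc : Continuous g) (hg : HasCompactSupport g) :
    Continuous fun x => ∫ z, g z • kk n R (x - z) := by
  have h := hg.continuous_convolution_left (ContinuousLinearMap.lsmul ℝ ℝ) hgc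
    (integrable_kk hK hn hp hR).locallyIntegrable
  exact h

theorem compact_of {g : E n → ℝ} {R : ℝ} (hg : tsupport g ⊆ ball 0 R) : HasCompactSupport g :=
  (isCompact_closedBall (0 : E n) R).of_isClosed_subset (isClosed_tsupport g)
    (hg.trans ball_subset_closedBall)

theorem memLp_Hg (hK : KerStatement) {p R : ℝ} (hn : 2 ≤ n) (hp : (n : ℝ) < p)
    (hR : 0 < R) {g : E n → ℝ} (hgc : Continuous g) (hg : tsupport g ⊆ ball 0 R) (q : ℝ≥0∞) :
    MemLp (Hg g) q (volume.restrict (ball 0 R)) := by
  have hc := continuous_conv hK hn hp hR hgc (compact_of hg)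
  have : IsFiniteMeasure (volume.restrict (ball (0 : E n) R)) :=
    ⟨by rw [Measure.restrict_apply_univ]; exact measure_ball_lt_top⟩
  have h1 : MemLp (fun x => ∫ z, g z • kk n R (x - z)) q (volume.restrict (ball 0 R)) := by
    obtain ⟨C, hC⟩ := (isCompact_closedBall (0 : E n) R).exists_bound_of_continuousOn
      hc.continuousOn
    refine MemLp.of_bound hc.aestronglyMeasurable C ?_
    rw [ae_restrict_iff' measurableSet_ball]
    exact Eventually.of_forall fun x hx => hC x (ball_subset_closedBall hx)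
  refine h1.ae_eq ?_
  refine (ae_restrict_iff' measurableSet_ball).2 (Eventually.of_forall fun x hx => ?_)
  exact (Hg_eq hg hx).symm

/-- pairing of the superposition with a test function -/
theorem pair_Hg (hK : KerStatement) {p R : ℝ} (hn : 2 ≤ n) (hp : (n : ℝ) < p)
    (hR : 0 < R) {g : E n → ℝ} (hgc : Continuous g) (hg : tsupport g ⊆ ball 0 R)
    {ψ : E n → ℝ} (hψ : Test (ball 0 R) ψ) : ∫ x, ⟪Hg g x, ∇ ψ x⟫ = ∫ z, g z * ψ z := by
  have hker := (hK n p R hn hp hR).2.2.1
  have hkk := integrable_kk (n := n) hK hn hp hR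
  have hgi : Integrable g := hgc.integrable_of_hasCompactSupport (compact_of hg)
  obtain ⟨C, hC0, -, hC⟩ := hψ.exists_bound
  have hprod : Integrable (fun q : E n × E n => g q.2 • kk n R (q.1 - q.2))
      (volume.prod volume) :=
    hgi.convolution_integrand (ContinuousLinearMap.lsmul ℝ ℝ) hkk
  have hprod2 : Integrable (fun q : E n × E n => ⟪g q.2 • kk n R (q.1 - q.2), ∇ ψ q.1⟫)
      (volume.prod volume) := by
    refine (hprod.norm.const_mul C).mono ?_ (Eventually.of_forall fun q => ?_)
    · refine hprod.1.inner ?_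
      exact ((continuous_grad hψ.1).comp continuous_fst).aestronglyMeasurable
    · refine (norm_inner_le_norm _ _).trans ?_
      rw [norm_mul, norm_norm, Real.norm_of_nonneg hC0.le, mul_comm]
      exact mul_le_mul_of_nonneg_right (hC _) (norm_nonneg _)
  have e1 : ∫ x, ⟪Hg g x, ∇ ψ x⟫ = ∫ x, ∫ z, ⟪g z • kk n R (x - z), ∇ ψ x⟫ := by
    refine integral_congr_ae ?_
    have hex := hgi.ae_convolution_exists (ContinuousLinearMap.lsmul ℝ ℝ) hkk
    filter_upwards [hex] with x hx
    by_cases hxb : x ∈ ball (0 : E n) R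
    · have hi : Integrable fun z => g z • kk n R (x - z) := hx
      rw [Hg_eq hg hxb, real_inner_comm, ← integral_inner hi]
      refine integral_congr_ae (Eventually.of_forall fun z => ?_)
      exact real_inner_comm _ _
    · have h0 : ∇ ψ x = 0 := grad_eq_zero_of_notMem fun h => hxb (hψ.2.2 h)
      simp only [h0, inner_zero_right, integral_zero]
  rw [e1, integral_integral_swap hprod2]
  refine integral_congr_ae (Eventually.of_forall fun z => ?_)
  by_cases hz : z ∈ tsupport g
  · have h1 : ∀ x, ⟪g z • kk n R (x - z), ∇ ψ x⟫ = g z * ⟪ker z x, ∇ ψ x⟫ := by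
      intro x
      rw [real_inner_smul_left]
      by_cases hxb : x ∈ ball (0 : E n) R
      · rw [kk_eq (hg hz) hxb]
      · have h0 : ∇ ψ x = 0 := grad_eq_zero_of_notMem fun h => hxb (hψ.2.2 h)
        simp only [h0, inner_zero_right]
    simp only [h1]
    rw [integral_const_mul, hker z ψ (hψ.mono (subset_univ _))]
  · have h0 := image_eq_zero_of_notMem_tsupport hz
    simp only [h0, zero_smul, inner_zero_left, integral_zero, zero_mul]

theorem integral_H0 {p : ℝ} (hp : 1 < p) {D : Set (E n)} (hD : MeasurableSet D)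
    {u : E n → ℝ} {V : E n → E n} (hV : H0 volume p D u V) (K : E n → E n) :
    ∫ x, ⟪K x, V x⟫ = ∫ x in D, ⟪K x, V x⟫ := by
  have hz := (hV.ae_eq_zero hp hD).2
  rw [← integral_indicator hD]
  refine integral_congr_ae ?_
  rw [ae_restrict_iff' hD.compl] at hz
  filter_upwards [hz] with x hx
  by_cases hxD : x ∈ D
  · rw [indicator_of_mem hxD]
  · rw [indicator_of_notMem hxD, hx hxD, inner_zero_right]

/-- the solutions for `H` are the solutions for the superposition of kernels with density
`- div H` -/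
theorem sol_Hg (hK : KerStatement) {p R : ℝ} (hn : 2 ≤ n) (hp : (n : ℝ) < p)
    (hR : 0 < R) {a : E n → E n → E n} {H : E n → E n} (hH : ContDiff ℝ ∞ H)
    (hs : tsupport H ⊆ ball 0 R) {u : E n → ℝ} {U : E n → E n} (h : Sol p a R H u U) :
    Sol p a R (fun x => ∫ z, (-dvg H z) • ker z x) u U := by
  have hp1 : 1 < p := by
    have : (2 : ℝ) ≤ n := by exact_mod_cast hn
    linarith
  refine ⟨h.h0, h.cont, fun ψ V hV => ?_⟩
  rw [h.eqn ψ V hV]
  have hgc : Continuous fun z => -dvg H z := (continuous_dvg hH).neg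
  have hcH : HasCompactSupport H :=
    (isCompact_closedBall (0 : E n) R).of_isClosed_subset (isClosed_tsupport H)
      (hs.trans ball_subset_closedBall)
  have hgs : tsupport (fun z => -dvg H z) ⊆ ball 0 R := by
    have h1 : Function.support (fun z => -dvg H z) = Function.support (dvg H) := by
      ext x; simp
    unfold tsupport
    rw [h1]
    exact tsupport_dvg.trans hs
  have m1 : MemLp H (ENNReal.ofReal (dx p)) (volume.restrict (ball 0 R)) :=
    (hH.continuous.memLp_of_hasCompactSupport (μ := volume) hcH).restrict _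
  have m2 : MemLp (Hg fun z => -dvg H z) (ENNReal.ofReal (dx p)) (volume.restrict (ball 0 R)) :=
    memLp_Hg hK hn hp hR hgc hgs _
  have hVb : MemLp V (ENNReal.ofReal p) (volume.restrict (ball 0 R)) := hV.2.1.restrict _
  have key : ∫ x, ⟪H x - Hg (fun z => -dvg H z) x, V x⟫ = 0 := by
    refine pair_zero hp1 measurableSet_ball (m1.sub m2) (fun φ hφ => ?_) hV
    have hφb : MemLp (fun x => ∇ φ x) (ENNReal.ofReal p) (volume.restrict (ball 0 R)) :=
      (hφ.memLp_grad (μ := volume) _).restrict _
    rw [integral_H0 hp1 measurableSet_ball (hφ.h0 (μ := volume) (p := p))]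
    simp only [Pi.sub_apply, inner_sub_left]
    rw [integral_sub (integrable_pair hp1 m1 hφb) (integrable_pair hp1 m2 hφb),
      ← integral_H0 hp1 measurableSet_ball (hφ.h0 (μ := volume) (p := p)),
      ← integral_H0 hp1 measurableSet_ball (hφ.h0 (μ := volume) (p := p)),
      pair_Hg hK hn hp hR hgc hgs hφ]
    have e1 := ibp hφ.1 hH hcH
    have e2 : ∫ z, -dvg H z * φ z = -∫ x, φ x * dvg H x := by
      rw [← integral_neg]
      refine integral_congr_ae (Eventually.of_forall fun z => ?_)
      ring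
    rw [e2, e1]
    ring
  rw [integral_H0 hp1 measurableSet_ball hV] at key ⊢
  simp only [inner_sub_left] at key
  rw [integral_sub (integrable_pair hp1 m1 hVb) (integrable_pair hp1 m2 hVb)] at key
  rw [integral_H0 hp1 measurableSet_ball hV]
  have : (∫ x in ball 0 R, ⟪∫ z, (-dvg H z) • ker z x, V x⟫) =
    ∫ x in ball 0 R, ⟪Hg (fun z => -dvg H z) x, V x⟫ := rfl
  rw [this]
  linarith

/-! ### The operator -/

theorem memLp_op {p : ℝ} {μ ν : Measure (E n)} {a : E n → E n → E n} {α β : ℝ}
    (hop : Op p μ a α β) {U : E n → E n} (hU : MemLp U (ENNReal.ofReal p) ν) :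
    MemLp (fun x => a x (U x)) (ENNReal.ofReal (dx p)) ν := by
  have hp := hop.hp
  have h1 := hU.norm_rpow_div (ENNReal.ofReal (p - 1))
  rw [ENNReal.toReal_ofReal (by linarith : (0 : ℝ) ≤ p - 1),
    ← ENNReal.ofReal_div_of_pos (by linarith)] at h1
  have h2 : MemLp (fun x => β * ‖U x‖ ^ (p - 1)) (ENNReal.ofReal (dx p)) ν := h1.const_mul β
  refine h2.mono ?_ (Eventually.of_forall fun x => ?_)
  · have : AEMeasurable (fun x => a x (U x)) ν :=
      hop.meas.comp_aemeasurable (aemeasurable_id.prodMk hU.1.aemeasurable)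
    exact this.aestronglyMeasurable
  · rw [norm_mul, Real.norm_of_nonneg (Real.rpow_nonneg (norm_nonneg _) _),
      Real.norm_of_nonneg (hop.hα.le.trans hop.hαβ)]
    exact hop.bdd x (U x)

/-- the basic identity -/
theorem basic (hK : KerStatement) (hRi : RiemStatement) {p R R' : ℝ} (hn : 2 ≤ n)
    (hp : (n : ℝ) < p) (hR : 0 < R) {a : E n → E n → E n} {α β : ℝ} (hop : Op p volume a α β)
    {T : E n → ℝ} {Y : E n → E n} (hTY : TY p a T Y R') (hR' : R' < R) {H : E n → E n}
    (hH : ContDiff ℝ ∞ H) (hs : tsupport H ⊆ ball 0 R) {u : E n → ℝ} {U : E n → E n}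
    (h : Sol p a R H u U) : ∫ x, ⟪a x (U x), Y x⟫ = - ∫ z, T z * dvg H z := by
  have h1 := sol_Hg hK hn hp hR hH hs h
  have hgs : tsupport (fun z => -dvg H z) ⊆ ball 0 R := by
    have h1 : Function.support (fun z => -dvg H z) = Function.support (dvg H) := by
      ext x; simp
    unfold tsupport
    rw [h1]
    exact tsupport_dvg.trans hs
  rw [hRi n p a α β R R' (fun z => -dvg H z) u U T Y hn hp hop hTY hR'
    (continuous_dvg hH).neg hgs h1, ← integral_neg]
  refine integral_congr_ae (Eventually.of_forall fun z => ?_)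
  simp only
  ring

theorem bound1 (hS : SolveStatement) (hSb : SboundStatement) (hK : KerStatement)
    (hRi : RiemStatement) {p R R' : ℝ} (hn : 2 ≤ n)
    (hp : (n : ℝ) < p) (hR : 0 < R) {a : E n → E n → E n} {α β : ℝ} (hop : Op p volume a α β)
    {T : E n → ℝ} {Y : E n → E n} (hTY : TY p a T Y R') (hR' : R' < R) {H : E n → E n}
    (hH : ContDiff ℝ ∞ H) (hs : tsupport H ⊆ ball 0 R) :
    |∫ z, T z * dvg H z| ≤ β / α * nq p volume Y * nq (dx p) volume H := by
  have hp1 : 1 < p := hop.hp
  have hn1 : 1 ≤ n := by omega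
  have hcH : HasCompactSupport H :=
    (isCompact_closedBall (0 : E n) R).of_isClosed_subset (isClosed_tsupport H)
      (hs.trans ball_subset_closedBall)
  have m0 : MemLp H (ENNReal.ofReal (dx p)) volume :=
    hH.continuous.memLp_of_hasCompactSupport hcH
  have m1 : MemLp H (ENNReal.ofReal (dx p)) (volume.restrict (ball 0 R)) := m0.restrict _
  obtain ⟨u, U, h⟩ := hS n p a α β R H hn1 hp hop hR m1
  have hU : MemLp U (ENNReal.ofReal p) volume := h.h0.2.1
  have e1 := basic hK hRi hn hp hR hop hTY hR' hH hs h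
  have e2 : |∫ z, T z * dvg H z| = |∫ x, ⟪a x (U x), Y x⟫| := by rw [e1, abs_neg]
  rw [e2]
  refine (abs_pair_le hp1 (memLp_op hop hU) hTY.memY).trans ?_
  have e3 := hSb n p a α β R H u U hn1 hp hop hR m1 h
  rw [← nq_eq (dx_gt hp1) (memLp_op hop hU), ← nq_eq (dx_gt hp1) m1] at e3
  have e4 : nq (dx p) (volume.restrict (ball 0 R)) H ≤ nq (dx p) volume H :=
    ENNReal.toReal_mono m0.2.ne (eLpNorm_mono_measure _ Measure.restrict_le_self)
  have hβα : 0 ≤ β / α := div_nonneg (hop.hα.le.trans hop.hαβ) hop.hα.le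
  have e5 : nq (dx p) volume (fun x => a x (U x)) ≤ β / α * nq (dx p) volume H :=
    e3.trans (mul_le_mul_of_nonneg_left e4 hβα)
  calc nq (dx p) volume (fun x => a x (U x)) * nq p volume Y
      ≤ (β / α * nq (dx p) volume H) * nq p volume Y :=
        mul_le_mul_of_nonneg_right e5 (nq_nonneg _ _ _)
    _ = _ := by ring

/-- the same for all smooth fields with compact support -/
theorem bound2 (hS : SolveStatement) (hSb : SboundStatement) (hK : KerStatement)
    (hRi : RiemStatement) {p R' : ℝ} (hn : 2 ≤ n)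
    (hp : (n : ℝ) < p) {a : E n → E n → E n} {α β : ℝ} (hop : Op p volume a α β)
    {T : E n → ℝ} {Y : E n → E n} (hTY : TY p a T Y R') {H : E n → E n}
    (hH : ContDiff ℝ ∞ H) (hc : HasCompactSupport H) :
    |∫ z, T z * dvg H z| ≤ β / α * nq p volume Y * nq (dx p) volume H := by
  have hR0 := hTY.hR
  let χ : ContDiffBump (0 : E n) := ⟨R', R' + 1, hR0, by linarith⟩
  have hχs : ContDiff ℝ ∞ fun x => χ x • H x := χ.contDiff.smul hH
  have hts : tsupport (fun x => χ x • H x) ⊆ ball 0 (R' + 2) := by
    have h1 : tsupport (fun x => χ x • H x) ⊆ tsupport χ :=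
      closure_mono fun x hx hχ => hx (by simp only [hχ, zero_smul])
    refine h1.trans ?_
    rw [χ.tsupport_eq]
    exact closedBall_subset_ball (by show R' + 1 < R' + 2; linarith)
  have h2 := bound1 hS hSb hK hRi hn hp (R := R' + 2) (by linarith) hop hTY (by linarith) hχs hts
  have e1 : ∫ z, T z * dvg H z = ∫ z, T z * dvg (fun x => χ x • H x) z := by
    refine integral_congr_ae (Eventually.of_forall fun z => ?_)
    by_cases hz : R' ≤ ‖z‖
    · simp only [(hTY.supp z hz).1, zero_mul]
    · simp only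
      congr 1
      refine dvg_congr ?_
      have : ball (0 : E n) R' ∈ 𝓝 z := isOpen_ball.mem_nhds (by simpa using hz)
      filter_upwards [this] with y hy
      have hy1 : χ y = 1 := χ.one_of_mem_closedBall (ball_subset_closedBall hy)
      rw [hy1, one_smul]
  rw [e1]
  refine h2.trans ?_
  have hβα : 0 ≤ β / α := div_nonneg (hop.hα.le.trans hop.hαβ) hop.hα.le
  refine mul_le_mul_of_nonneg_left ?_ (mul_nonneg hβα (nq_nonneg _ _ _))
  refine nq_mono (hH.continuous.memLp_of_hasCompactSupport hc) fun x => ?_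
  rw [norm_smul, Real.norm_of_nonneg (χ.nonneg)]
  exact mul_le_of_le_one_left (norm_nonneg _) χ.le_one

end Pool.Agent.Lib.MP_abd978_an.UN.H30
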