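import Pool.Agent.Lib.MP_abd978_an.UN.H30.Dual2

/-!
# DUAL, part 3: mollification and the converse of Hoelder's inequality
-/

set_option autoImplicit false

open MeasureTheory Metric Set Filter Topology ContDiff
open scoped Gradient RealInnerProductSpace NNReal ENNReal

namespace Pool.Agent.Lib.MP_abd978_an.UN.H30

variable {n : ℕ}

/-! ### The converse of Hoelder's inequality -/

theorem dual_all {p M : ℝ} (hp : 1 < p) (hM : 0 ≤ M) {V : E n → E n}
    (hV : MemLp V (ENNReal.ofReal p) volume)
    (h : ∀ H : E n → E n, ContDiff ℝ ∞ H → HasCompactSupport H →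
      |∫ x, ⟪H x, V x⟫| ≤ M * nq (dx p) volume H) {H : E n → E n}
    (hH : MemLp H (ENNReal.ofReal (dx p)) volume) :
    |∫ x, ⟪H x, V x⟫| ≤ M * nq (dx p) volume H := by
  have key : ∀ δ : ℝ, 0 < δ → |∫ x, ⟪H x, V x⟫| ≤
      M * nq (dx p) volume H + (nq p volume V + M) * δ := by
    intro δ hδ
    obtain ⟨g, hg1, hg2, hg3⟩ := MemLp.exist_eLpNorm_sub_le ENNReal.ofReal_ne_top
      (one_le_ofReal (dx_gt hp)) hH hδ
    have hg : MemLp g (ENNReal.ofReal (dx p)) volume :=
      hg2.continuous.memLp_of_hasCompactSupport hg1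
    have i1 : Integrable fun x => ⟪H x - g x, V x⟫ := integrable_pair hp (hH.sub hg) hV
    have e1 : ∫ x, ⟪H x, V x⟫ = (∫ x, ⟪H x - g x, V x⟫) + ∫ x, ⟪g x, V x⟫ := by
      rw [← integral_add i1 (integrable_pair hp hg hV)]
      refine integral_congr_ae (Eventually.of_forall fun x => ?_)
      simp only [inner_sub_left]
      ring
    have e2 : nq (dx p) volume (fun x => H x - g x) ≤ δ := by
      unfold nq
      refine ENNReal.toReal_le_of_le_ofReal hδ.le hg3
    have e3 := abs_pair_le hp (hH.sub hg) hV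
    have e4 := h g hg2 hg1
    have e5 := nq_sub_le (dx_gt hp) hH hg
    rw [e1]
    refine (abs_add_le _ _).trans ?_
    have e6 : |∫ x, ⟪H x - g x, V x⟫| ≤ δ * nq p volume V :=
      e3.trans (mul_le_mul_of_nonneg_right e2 (nq_nonneg _ _ _))
    have e7 : |∫ x, ⟪g x, V x⟫| ≤ M * (nq (dx p) volume H + δ) :=
      e4.trans (mul_le_mul_of_nonneg_left (e5.trans (by linarith)) hM)
    linarith
  have hB : 0 ≤ nq p volume V + M := add_nonneg (nq_nonneg _ _ _) hM
  refine le_of_forall_pos_le_add fun ε hε => ?_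
  have h1 := key (ε / (nq p volume V + M + 1)) (by positivity)
  have h2 : (nq p volume V + M) * (ε / (nq p volume V + M + 1)) ≤ ε := by
    rw [mul_div_assoc', div_le_iff₀ (by positivity)]
    nlinarith
  linarith

theorem norm_dualmap {p : ℝ} (hp : 1 < p) (v : E n) :
    ‖‖v‖ ^ (p - 2) • v‖ = ‖v‖ ^ (p - 1) := by
  rw [norm_smul, Real.norm_of_nonneg (Real.rpow_nonneg (norm_nonneg _) _)]
  by_cases hv : v = 0
  · subst hv
    rw [norm_zero, mul_zero, Real.zero_rpow (by linarith)]
  · have : 0 < ‖v‖ := norm_pos_iff.2 hv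
    conv_rhs => rw [show p - 1 = (p - 2) + 1 by ring, Real.rpow_add this, Real.rpow_one]

theorem nq_le_of_dual {p M : ℝ} (hp : 1 < p) (hM : 0 ≤ M) {V : E n → E n}
    (hV : MemLp V (ENNReal.ofReal p) volume)
    (h : ∀ H : E n → E n, ContDiff ℝ ∞ H → HasCompactSupport H →
      |∫ x, ⟪H x, V x⟫| ≤ M * nq (dx p) volume H) : nq p volume V ≤ M := by
  set H : E n → E n := fun x => ‖V x‖ ^ (p - 2) • V x with hHdef
  have h1 := hV.norm_rpow_div (ENNReal.ofReal (p - 1))
  rw [ENNReal.toReal_ofReal (by linarith : (0 : ℝ) ≤ p - 1),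
    ← ENNReal.ofReal_div_of_pos (by linarith)] at h1
  have hnorm : ∀ x, ‖H x‖ = ‖V x‖ ^ (p - 1) := fun x => norm_dualmap hp (V x)
  have hH : MemLp H (ENNReal.ofReal (dx p)) volume := by
    have h2 : MemLp (fun x => ‖V x‖ ^ (p - 1)) (ENNReal.ofReal (dx p)) volume := h1
    refine h2.mono ?_ (Eventually.of_forall fun x => ?_)
    · exact (hV.1.norm.aemeasurable.pow_const (p - 2)).aestronglyMeasurable.smul hV.1
    · rw [hnorm, Real.norm_of_nonneg (Real.rpow_nonneg (norm_nonneg _) _)]
  have h3 := dual_all hp hM hV h hH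
  have hpt : ∀ x, ⟪H x, V x⟫ = ‖V x‖ ^ p := by
    intro x
    simp only [hHdef]
    rw [real_inner_smul_left, real_inner_self_eq_norm_sq]
    by_cases hv : V x = 0
    · rw [hv, norm_zero, Real.zero_rpow (by linarith : p ≠ 0)]
      simp
    · have : 0 < ‖V x‖ := norm_pos_iff.2 hv
      rw [← Real.rpow_natCast, ← Real.rpow_add this]
      congr 1
      push_cast
      ring
  have hpt2 : ∀ x, ‖H x‖ ^ dx p = ‖V x‖ ^ p := by
    intro x
    rw [hnorm, ← Real.rpow_mul (norm_nonneg _)]
    congr 1
    unfold dx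
    rw [mul_div_cancel₀ _ (by linarith : p - 1 ≠ 0)]
  set I : ℝ := ∫ x, ‖V x‖ ^ p with hI
  have hI0 : 0 ≤ I := integral_nonneg fun x => Real.rpow_nonneg (norm_nonneg _) _
  simp only [hpt] at h3
  rw [nq_eq (dx_gt hp) hH] at h3
  simp only [hpt2] at h3
  rw [abs_of_nonneg hI0] at h3
  rw [nq_eq hp hV]
  by_cases hI1 : I = 0
  · rw [← hI, hI1, Real.zero_rpow (by positivity)]
    exact hM
  · have hIpos : 0 < I := lt_of_le_of_ne hI0 (Ne.symm hI1)
    have hexp : (1 : ℝ) / p + 1 / dx p = 1 := by
      unfold dx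
      field_simp
      ring
    have h4 : I ^ (1 / p) * I ^ (1 / dx p) = I := by
      rw [← Real.rpow_add hIpos, hexp, Real.rpow_one]
    have h5 : 0 < I ^ (1 / dx p) := Real.rpow_pos_of_pos hIpos _
    have h6 : I ^ (1 / p) * I ^ (1 / dx p) ≤ M * I ^ (1 / dx p) := by
      rw [h4]; exact h3
    exact le_of_mul_le_mul_right h6 h5

/-! ### Mollification -/

/-- the mollifier -/
noncomputable def moll (n : ℕ) (k : ℕ) : ContDiffBump (0 : E n) :=
  ⟨(1 / 2 : ℝ) * (1 / ((k : ℝ) + 1)), 1 / ((k : ℝ) + 1), by positivity, by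
    have : (0 : ℝ) < 1 / ((k : ℝ) + 1) := by positivity
    linarith⟩

/-- the mollified function -/
noncomputable def mo (T : E n → ℝ) (k : ℕ) (x : E n) : ℝ :=
  ∫ t, (moll n k).normed volume t * T (x - t)

theorem mo_eq (T : E n → ℝ) (k : ℕ) :
    mo T k = MeasureTheory.convolution ((moll n k).normed volume) T
      (ContinuousLinearMap.lsmul ℝ ℝ) volume := rfl

theorem integrable_of_bdd {T : E n → ℝ} {C R' : ℝ} (hT : Measurable T) (hb : ∀ z, |T z| ≤ C)
    (hs : ∀ z, R' ≤ ‖z‖ → T z = 0) : Integrable T := by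
  have h1 : Integrable ((closedBall (0 : E n) R').indicator fun _ => C) := by
    rw [integrable_indicator_iff measurableSet_closedBall]
    exact integrableOn_const measure_closedBall_lt_top.ne
  refine h1.mono' hT.aestronglyMeasurable (Eventually.of_forall fun z => ?_)
  by_cases hz : z ∈ closedBall (0 : E n) R'
  · rw [indicator_of_mem hz]; exact hb z
  · rw [indicator_of_notMem hz]
    have : R' ≤ ‖z‖ := by
      simp only [mem_closedBall, dist_zero_right, not_le] at hz; exact hz.le
    rw [hs z this, norm_zero]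

theorem contDiff_mo {T : E n → ℝ} (hT : Integrable T) (k : ℕ) : ContDiff ℝ ∞ (mo T k) := by
  rw [mo_eq]
  exact (moll n k).hasCompactSupport_normed.contDiff_convolution_left _
    (moll n k).contDiff_normed hT.locallyIntegrable

theorem mo_eq_zero' {T : E n → ℝ} {R' : ℝ} (hs : ∀ z, R' ≤ ‖z‖ → T z = 0) (k : ℕ) {x : E n}
    (hx : R' + 1 / ((k : ℝ) + 1) ≤ ‖x‖) : mo T k x = 0 := by
  unfold mo
  rw [← integral_zero (E n) ℝ]
  refine integral_congr_ae (Eventually.of_forall fun t => ?_)
  by_cases ht : t ∈ Function.support ((moll n k).normed (volume : Measure (E n)))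
  · rw [ContDiffBump.support_normed_eq] at ht
    have h1 : ‖t‖ < 1 / ((k : ℝ) + 1) := by simpa [moll] using ht
    have h4 : R' ≤ ‖x - t‖ := by
      have := norm_sub_norm_le x t
      linarith
    simp only [hs _ h4, mul_zero]
  · have : (moll n k).normed (volume : Measure (E n)) t = 0 := by
      by_contra hc; exact ht hc
    simp only [this, zero_mul]

theorem one_div_le (k : ℕ) : 1 / ((k : ℝ) + 1) ≤ 1 := by
  rw [div_le_one (by positivity)]
  have : (0 : ℝ) ≤ k := Nat.cast_nonneg k
  linarith

theorem mo_eq_zero {T : E n → ℝ} {R' : ℝ} (hs : ∀ z, R' ≤ ‖z‖ → T z = 0) (k : ℕ) {x : E n}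
    (hx : R' + 1 ≤ ‖x‖) : mo T k x = 0 :=
  mo_eq_zero' hs k (by linarith [one_div_le k])

theorem test_mo {T : E n → ℝ} {R' : ℝ} (hT : Integrable T) (hs : ∀ z, R' ≤ ‖z‖ → T z = 0)
    (k : ℕ) {R : ℝ} (hR : R' + 1 / ((k : ℝ) + 1) < R) : Test (ball 0 R) (mo T k) := by
  have h1 : tsupport (mo T k) ⊆ closedBall (0 : E n) (R' + 1 / ((k : ℝ) + 1)) := by
    refine closure_minimal (fun x hx => ?_) isClosed_closedBall
    rw [mem_closedBall, dist_zero_right]
    by_contra hcon
    exact hx (mo_eq_zero' hs k (by linarith))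
  exact ⟨contDiff_mo hT k, (isCompact_closedBall (0 : E n) _).of_isClosed_subset
    (isClosed_tsupport _) h1, h1.trans (closedBall_subset_ball hR)⟩

theorem abs_mo_le {T : E n → ℝ} {C : ℝ} (hb : ∀ z, |T z| ≤ C) (k : ℕ)
    (x : E n) : |mo T k x| ≤ C := by
  unfold mo
  refine (abs_integral_le_integral_abs).trans ?_
  have h1 : ∫ t, C * (moll n k).normed (volume : Measure (E n)) t = C := by
    rw [integral_const_mul, ContDiffBump.integral_normed, mul_one]
  rw [← h1]
  refine integral_mono_of_nonneg (Eventually.of_forall fun t => abs_nonneg _)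
    ((moll n k).integrable_normed.const_mul C) (Eventually.of_forall fun t => ?_)
  simp only [abs_mul]
  rw [abs_of_nonneg ((moll n k).nonneg_normed t), mul_comm]
  exact mul_le_mul_of_nonneg_right (hb _) ((moll n k).nonneg_normed t)

/-- convergence in `L^p` -/
theorem tendsto_mo {T : E n → ℝ} {C R' p : ℝ} (hp : 1 < p) (hT : Measurable T)
    (hb : ∀ z, |T z| ≤ C) (hs : ∀ z, R' ≤ ‖z‖ → T z = 0) :
    Tendsto (fun k => eLpNorm (fun x => mo T k x - T x) (ENNReal.ofReal p) volume)
      atTop (𝓝 0) := by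
  have hTi := integrable_of_bdd hT hb hs
  have hC0 : 0 ≤ C := (abs_nonneg _).trans (hb 0)
  have hae : ∀ᵐ x : E n, Tendsto (fun k => mo T k x) atTop (𝓝 (T x)) := by
    have h1 : Tendsto (fun k : ℕ => (moll n k).rOut) atTop (𝓝 0) := by
      have := tendsto_one_div_add_atTop_nhds_zero_nat (𝕜 := ℝ)
      exact this
    have h2 : ∀ᶠ k : ℕ in atTop, (moll n k).rOut ≤ 2 * (moll n k).rIn := by
      refine Eventually.of_forall fun k => ?_
      simp only [moll]
      linarith
    exact ContDiffBump.ae_convolution_tendsto_right_of_locallyIntegrable h1 h2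
      hTi.locallyIntegrable
  have hint : Integrable fun x : E n => ((closedBall (0 : E n) (R' + 1)).indicator
      fun _ => (2 * C) ^ p) x := by
    rw [integrable_indicator_iff measurableSet_closedBall]
    exact integrableOn_const measure_closedBall_lt_top.ne
  have hlim : Tendsto (fun k => ∫ x : E n, ‖mo T k x - T x‖ ^ p) atTop (𝓝 0) := by
    have h0 : ∫ x : E n, ‖T x - T x‖ ^ p = 0 := by
      simp [Real.zero_rpow (by linarith : p ≠ 0)]
    rw [← h0]
    refine tendsto_integral_of_dominated_convergence _ (fun k => ?_) hint (fun k => ?_) ?_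
    · exact (((contDiff_mo hTi k).continuous.measurable.sub hT).norm.pow_const
        p).aestronglyMeasurable
    · refine Eventually.of_forall fun x => ?_
      rw [Real.norm_of_nonneg (Real.rpow_nonneg (norm_nonneg _) _)]
      by_cases hx : x ∈ closedBall (0 : E n) (R' + 1)
      · rw [indicator_of_mem hx]
        refine Real.rpow_le_rpow (norm_nonneg _) ?_ (by linarith)
        refine (norm_sub_le _ _).trans ?_
        have h1 := abs_mo_le hb k x
        have h2 := hb x
        rw [Real.norm_eq_abs, Real.norm_eq_abs]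
        linarith
      · rw [indicator_of_notMem hx]
        have hx2 : R' + 1 ≤ ‖x‖ := by
          simp only [mem_closedBall, dist_zero_right, not_le] at hx; exact hx.le
        rw [mo_eq_zero hs k hx2, hs x (by linarith), sub_zero, norm_zero,
          Real.zero_rpow (by linarith : p ≠ 0)]
    · filter_upwards [hae] with x hx
      have h1 : Tendsto (fun k => ‖mo T k x - T x‖) atTop (𝓝 ‖T x - T x‖) :=
        (hx.sub_const (T x)).norm
      exact h1.rpow_const (Or.inr (by linarith))
  have hmem : ∀ k, MemLp (fun x => mo T k x - T x) (ENNReal.ofReal p)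
      (volume : Measure (E n)) := by
    intro k
    have h1 : MemLp (fun x : E n => (closedBall (0 : E n) (R' + 1)).indicator
        (fun _ => 2 * C) x) (ENNReal.ofReal p) volume :=
      memLp_indicator_const _ measurableSet_closedBall _
        (Or.inr measure_closedBall_lt_top.ne)
    refine h1.mono ((contDiff_mo hTi k).continuous.measurable.sub hT).aestronglyMeasurable
      (Eventually.of_forall fun x => ?_)
    by_cases hx : x ∈ closedBall (0 : E n) (R' + 1)
    · rw [indicator_of_mem hx, Real.norm_of_nonneg (by linarith : (0 : ℝ) ≤ 2 * C)]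
      refine (norm_sub_le _ _).trans ?_
      have h1 := abs_mo_le hb k x
      have h2 := hb x
      rw [Real.norm_eq_abs, Real.norm_eq_abs]
      linarith
    · rw [indicator_of_notMem hx]
      have hx2 : R' + 1 ≤ ‖x‖ := by
        simp only [mem_closedBall, dist_zero_right, not_le] at hx; exact hx.le
      rw [mo_eq_zero hs k hx2, hs x (by linarith), sub_zero]
  have e : ∀ k, eLpNorm (fun x => mo T k x - T x) (ENNReal.ofReal p) volume =
      ENNReal.ofReal ((∫ x : E n, ‖mo T k x - T x‖ ^ p) ^ p⁻¹) := by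
    intro k
    rw [(hmem k).eLpNorm_eq_integral_rpow_norm (ofReal_ne_zero hp) ENNReal.ofReal_ne_top,
      ENNReal.toReal_ofReal (by linarith : (0 : ℝ) ≤ p)]
  simp only [e]
  have h2 : Tendsto (fun k => (∫ x : E n, ‖mo T k x - T x‖ ^ p) ^ p⁻¹) atTop
      (𝓝 ((0 : ℝ) ^ p⁻¹)) := hlim.rpow_const (Or.inr (by positivity))
  rw [Real.zero_rpow (by positivity)] at h2
  have h3 := (ENNReal.continuous_ofReal.tendsto 0).comp h2
  rw [ENNReal.ofReal_zero] at h3
  exact h3

/-- the divergence against the mollified function -/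
theorem mo_dvg {T : E n → ℝ} (hT : Integrable T) (k : ℕ) {H : E n → E n}
    (hH : ContDiff ℝ ∞ H) (hc : HasCompactSupport H) :
    ∫ x, mo T k x * dvg H x = ∫ t, (moll n k).normed volume t *
      ∫ x, T x * dvg (fun y => H (y + t)) x := by
  have hρ := (moll n k).integrable_normed (μ := (volume : Measure (E n)))
  have hprod : Integrable (fun q : E n × E n =>
      (moll n k).normed volume q.2 * T (q.1 - q.2)) (volume.prod volume) :=
    hρ.convolution_integrand (ContinuousLinearMap.lsmul ℝ ℝ) hT
  obtain ⟨C, hC⟩ := (hasCompactSupport_dvg hc).exists_bound_of_continuous (continuous_dvg hH)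
  have hprod2 : Integrable (fun q : E n × E n =>
      ((moll n k).normed volume q.2 * T (q.1 - q.2)) * dvg H q.1) (volume.prod volume) := by
    refine hprod.mul_bdd (c := C) ?_ (Eventually.of_forall fun q => hC q.1)
    exact ((continuous_dvg hH).comp continuous_fst).aestronglyMeasurable
  have e1 : ∫ x, mo T k x * dvg H x = ∫ x, ∫ t,
      ((moll n k).normed volume t * T (x - t)) * dvg H x := by
    refine integral_congr_ae (Eventually.of_forall fun x => ?_)
    simp only [mo]
    rw [integral_mul_const]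
  rw [e1, integral_integral_swap hprod2]
  refine integral_congr_ae (Eventually.of_forall fun t => ?_)
  simp only
  have e2 : ∀ x, ((moll n k).normed volume t * T (x - t)) * dvg H x =
      (moll n k).normed volume t * (T (x - t) * dvg H x) := fun x => by ring
  simp only [e2]
  rw [integral_const_mul]
  congr 1
  rw [← integral_add_right_eq_self (μ := volume) (fun x => T (x - t) * dvg H x) t]
  refine integral_congr_ae (Eventually.of_forall fun x => ?_)
  simp only [add_sub_cancel_right, dvg_shift]

theorem nq_shift {q : ℝ} {H : E n → E n} (hH : Continuous H) (t : E n) :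
    nq q volume (fun y => H (y + t)) = nq q volume H := by
  unfold nq
  congr 1
  exact eLpNorm_comp_measurePreserving hH.aestronglyMeasurable
    (measurePreserving_add_right volume t)

/-- the gradients of the mollified functions are bounded in `L^p` -/
theorem nq_grad_mo_le {p M : ℝ} (hp : 1 < p) (hM : 0 ≤ M) {T : E n → ℝ} {R' : ℝ}
    (hT : Integrable T) (hs : ∀ z, R' ≤ ‖z‖ → T z = 0)
    (h : ∀ H : E n → E n, ContDiff ℝ ∞ H → HasCompactSupport H →
      |∫ z, T z * dvg H z| ≤ M * nq (dx p) volume H) (k : ℕ) :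
    nq p volume (fun x => ∇ (mo T k) x) ≤ M := by
  have ht := test_mo hT hs k (R := R' + 2) (by linarith [one_div_le k])
  refine nq_le_of_dual hp hM (ht.memLp_grad _) fun H hH hc => ?_
  have e1 := ibp ht.1 hH hc
  have e2 : |∫ x, ⟪H x, ∇ (mo T k) x⟫| = |∫ x, mo T k x * dvg H x| := by
    rw [e1, abs_neg]
  rw [e2, mo_dvg hT k hH hc]
  refine (abs_integral_le_integral_abs).trans ?_
  have h1 : ∫ t, (M * nq (dx p) volume H) * (moll n k).normed (volume : Measure (E n)) t =
      M * nq (dx p) volume H := by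
    rw [integral_const_mul, ContDiffBump.integral_normed, mul_one]
  rw [← h1]
  refine integral_mono_of_nonneg (Eventually.of_forall fun t => abs_nonneg _)
    ((moll n k).integrable_normed.const_mul _) (Eventually.of_forall fun t => ?_)
  simp only [abs_mul]
  rw [abs_of_nonneg ((moll n k).nonneg_normed t), mul_comm]
  refine mul_le_mul_of_nonneg_right ?_ ((moll n k).nonneg_normed t)
  have h2 := h (fun y => H (y + t)) (hH.comp (contDiff_id.add contDiff_const))
    (hc.comp_homeomorph (Homeomorph.addRight t))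
  rwa [nq_shift hH.continuous] at h2

end Pool.Agent.Lib.MP_abd978_an.UN.H30
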